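import Pool.Graph.R_pool_sql_team_seeded_64922ed1.X24.Coset.M

set_option autoImplicit false

/-!
# Nonnegative combinations of evaluations, for real characters

This follows the library files `Pool.Agent.X24.Coset.G`, `H`, `K`, with completely multiplicative real functions
in the place of the characters modulo a prime.
-/

namespace Pool.Agent.H86.QE

open Finset
open Pool.Agent.X24.Coset (rs rs_nonneg rs_mul rs_sq es mul_es es_zero cnt ms mp mp_prop mp_other cnt_mul_mem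
  cnt_mul_notMem)

/-- completely multiplicative functions with values `±1` at the primes up to `Y` -/
structure Ev (Y : ℕ) (z : ℕ → ℝ) : Prop where
  one : z 1 = 1
  mul : ∀ m n, 1 ≤ m → 1 ≤ n → z (m * n) = z m * z n
  sq : ∀ p : ℕ, p.Prime → p ≤ Y → z p ^ 2 = 1

/-- combinations of evaluations with nonnegative coefficients -/
inductive Pos (Y : ℕ) : ((ℕ → ℝ) → ℝ) → Prop
  | eval (n : ℕ) (hn : 1 ≤ n) : Pos Y (fun z => z n)
  | zero : Pos Y (fun _ => 0)
  | add {f g : (ℕ → ℝ) → ℝ} (hf : Pos Y f) (hg : Pos Y g) : Pos Y (fun z => f z + g z)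
  | smul {f : (ℕ → ℝ) → ℝ} {c : ℝ} (hf : Pos Y f) (hc : 0 ≤ c) : Pos Y (fun z => c * f z)
  | congr {f g : (ℕ → ℝ) → ℝ} (hf : Pos Y f) (h : ∀ z, Ev Y z → g z = f z) : Pos Y g

variable {Y : ℕ}

theorem Pos.mul {f g : (ℕ → ℝ) → ℝ} (hf : Pos Y f) (hg : Pos Y g) : Pos Y (fun z => f z * g z) := by
  induction hf with
  | eval n hn =>
    induction hg with
    | eval m hm => exact (Pos.eval (n * m) (Nat.mul_pos hn hm)).congr fun z hz => (hz.mul n m hn hm).symm
    | zero => exact Pos.zero.congr fun z _ => mul_zero _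
    | add _ _ h1 h2 => exact (h1.add h2).congr fun z _ => mul_add _ _ _
    | smul _ hc h1 => exact (h1.smul hc).congr fun z _ => by ring
    | congr _ h h1 => exact h1.congr fun z hz => by rw [h z hz]
  | zero => exact Pos.zero.congr fun z _ => zero_mul _
  | add _ _ h1 h2 => exact (h1.add h2).congr fun z _ => add_mul _ _ _
  | smul _ hc h1 => exact (h1.smul hc).congr fun z _ => mul_assoc _ _ _
  | congr _ h h1 => exact h1.congr fun z hz => by rw [h z hz]

theorem Pos.one : Pos Y (fun _ => 1) := (Pos.eval 1 le_rfl).congr fun _ hz => hz.one.symm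

theorem const_pos {c : ℝ} (hc : 0 ≤ c) : Pos Y (fun _ => c) := (Pos.one.smul hc).congr fun _ _ => (mul_one c).symm

theorem Pos.sum {ι : Type*} (s : Finset ι) {Φ : ι → (ℕ → ℝ) → ℝ} (h : ∀ i ∈ s, Pos Y (Φ i)) :
    Pos Y (fun z => ∑ i ∈ s, Φ i z) := by
  classical
  induction s using Finset.induction_on with
  | empty => exact Pos.zero.congr fun z _ => by simp
  | insert a s ha ih =>
    refine ((h a (mem_insert_self a s)).add (ih fun i hi => h i (mem_insert_of_mem hi))).congr fun z _ => ?_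
    beta_reduce
    rw [sum_insert ha]

theorem Pos.prod {ι : Type*} (s : Finset ι) {Φ : ι → (ℕ → ℝ) → ℝ} (h : ∀ i ∈ s, Pos Y (Φ i)) :
    Pos Y (fun z => ∏ i ∈ s, Φ i z) := by
  classical
  induction s using Finset.induction_on with
  | empty => exact Pos.one.congr fun z _ => by simp
  | insert a s ha ih =>
    refine ((h a (mem_insert_self a s)).mul (ih fun i hi => h i (mem_insert_of_mem hi))).congr fun z _ => ?_
    beta_reduce
    rw [prod_insert ha]

theorem Pos.pow {f : (ℕ → ℝ) → ℝ} (h : Pos Y f) (n : ℕ) : Pos Y (fun z => f z ^ n) := by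
  induction n with
  | zero => exact Pos.one.congr fun z _ => pow_zero _
  | succ n ih => exact (ih.mul h).congr fun z _ => pow_succ _ _

/-- `f ≤ g` coefficientwise -/
def Dom (Y : ℕ) (f g : (ℕ → ℝ) → ℝ) : Prop := Pos Y (fun z => g z - f z)

theorem Dom.mul_left {f g t : (ℕ → ℝ) → ℝ} (h : Dom Y f g) (ht : Pos Y t) :
    Dom Y (fun z => t z * f z) (fun z => t z * g z) :=
  (ht.mul h).congr fun _ _ => (mul_sub _ _ _).symm

theorem Dom.smul {f g : (ℕ → ℝ) → ℝ} (h : Dom Y f g) {c : ℝ} (hc : 0 ≤ c) :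
    Dom Y (fun z => c * f z) (fun z => c * g z) :=
  (Pos.smul h hc).congr fun _ _ => (mul_sub _ _ _).symm

theorem Dom.trans {f g t : (ℕ → ℝ) → ℝ} (h : Dom Y f g) (h' : Dom Y g t) : Dom Y f t :=
  (Pos.add h h').congr fun z _ => by ring

theorem Dom.prod {ι : Type*} (s : Finset ι) {Φ Ψ : ι → (ℕ → ℝ) → ℝ} (h : ∀ i ∈ s, Dom Y (Φ i) (Ψ i))
    (hΦ : ∀ i ∈ s, Pos Y (Φ i)) (hΨ : ∀ i ∈ s, Pos Y (Ψ i)) :
    Dom Y (fun z => ∏ i ∈ s, Φ i z) (fun z => ∏ i ∈ s, Ψ i z) := by
  classical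
  induction s using Finset.induction_on with
  | empty => exact Pos.zero.congr fun z _ => by simp
  | insert a s ha ih =>
    have ih' := ih (fun i hi => h i (mem_insert_of_mem hi)) (fun i hi => hΦ i (mem_insert_of_mem hi))
      (fun i hi => hΨ i (mem_insert_of_mem hi))
    have h1 : Pos Y (fun z => (Ψ a z - Φ a z) * ∏ i ∈ s, Ψ i z) :=
      Pos.mul (h a (mem_insert_self a s)) (Pos.prod s fun i hi => hΨ i (mem_insert_of_mem hi))
    have h2 : Pos Y (fun z => Φ a z * (∏ i ∈ s, Ψ i z - ∏ i ∈ s, Φ i z)) :=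
      Pos.mul (hΦ a (mem_insert_self a s)) ih'
    refine (h1.add h2).congr fun z _ => ?_
    beta_reduce
    rw [prod_insert ha, prod_insert ha]
    ring

/-! ### the sums over the primes -/

/-- the sum `∑ z(a) a ^ (-1/2)` over `S` -/
noncomputable def FS (S : Finset ℕ) (z : ℕ → ℝ) : ℝ := ∑ a ∈ S, rs a * z a

theorem FS_pos {S : Finset ℕ} (hS : ∀ a ∈ S, 1 ≤ a) : Pos Y (FS S) :=
  (Pos.sum S (Φ := fun a z => rs a * z a) fun a ha => (Pos.eval a (hS a ha)).smul (rs_nonneg a)).congr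
    fun _ _ => rfl

/-- the terms -/
noncomputable def tm (z : ℕ → ℝ) (p : ℕ) : ℝ := rs p * z p

theorem tm_pos {p : ℕ} (hp : 1 ≤ p) : Pos Y (fun z => tm z p) := (Pos.eval p hp).smul (rs_nonneg p)

theorem es_pos {T : Finset ℕ} (hT : ∀ p ∈ T, 1 ≤ p) (k : ℕ) : Pos Y (fun z => es T (tm z) k) :=
  Pos.sum _ fun A hA => Pos.prod _ fun p hp => tm_pos (hT p ((mem_powersetCard.1 hA).1 hp))

theorem D_pow_ge {T : Finset ℕ} (hT : ∀ p ∈ T, 1 ≤ p) (k : ℕ) :
    Dom Y (fun z => (k.factorial : ℝ) * es T (tm z) k) (fun z => FS T z ^ k) := by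
  induction k with
  | zero =>
    refine Pos.zero.congr fun z _ => ?_
    beta_reduce
    simp [es_zero]
  | succ k ih =>
    have h1 := ih.mul_left (FS_pos (Y := Y) hT)
    have h2 : Dom Y (fun z => ((k + 1 : ℕ) : ℝ) * es T (tm z) (k + 1)) (fun z => FS T z * es T (tm z) k) := by
      have h3 : Pos Y (fun z => ∑ A ∈ powersetCard k T, (∑ p ∈ A, tm z p) * ∏ p ∈ A, tm z p) :=
        Pos.sum _ fun A hA => (Pos.sum _ fun p hp => tm_pos (hT p ((mem_powersetCard.1 hA).1 hp))).mul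
          (Pos.prod _ fun p hp => tm_pos (hT p ((mem_powersetCard.1 hA).1 hp)))
      refine h3.congr fun z _ => ?_
      beta_reduce
      have h4 := mul_es T (tm z) k
      have h5 : FS T z = ∑ p ∈ T, tm z p := rfl
      rw [h5, h4]
      ring
    have h3 := h2.smul (c := (k.factorial : ℝ)) (Nat.cast_nonneg _)
    have h4 : Dom Y (fun z => ((k + 1).factorial : ℝ) * es T (tm z) (k + 1))
        (fun z => FS T z * ((k.factorial : ℝ) * es T (tm z) k)) := by
      refine Pos.congr h3 fun z _ => ?_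
      beta_reduce
      rw [Nat.factorial_succ]
      push_cast
      ring
    refine Pos.congr (h4.trans h1) fun z _ => ?_
    beta_reduce
    rw [pow_succ']

theorem es_sq {T : Finset ℕ} (hT : ∀ p ∈ T, p.Prime ∧ p ≤ Y) (k : ℕ) :
    Dom Y (fun _ => es T (fun p => 1 / (p : ℝ)) k) (fun z => es T (tm z) k * es T (tm z) k) := by
  classical
  have hT1 : ∀ p ∈ T, 1 ≤ p := fun p hp => (hT p hp).1.one_lt.le
  have h2 : Pos Y (fun z => ∑ A ∈ powersetCard k T, ∑ B ∈ (powersetCard k T).erase A,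
        (∏ p ∈ A, tm z p) * ∏ p ∈ B, tm z p) :=
    Pos.sum _ fun A hA => Pos.sum _ fun B hB =>
      (Pos.prod _ fun p hp => tm_pos (hT1 p ((mem_powersetCard.1 hA).1 hp))).mul
        (Pos.prod _ fun p hp => tm_pos (hT1 p ((mem_powersetCard.1 (mem_of_mem_erase hB)).1 hp)))
  refine h2.congr fun z hz => ?_
  beta_reduce
  have h3 : es T (fun p => 1 / (p : ℝ)) k =
      ∑ A ∈ powersetCard k T, (∏ p ∈ A, tm z p) * (∏ p ∈ A, tm z p) := by
    unfold es
    refine sum_congr rfl fun A hA => ?_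
    rw [mem_powersetCard] at hA
    rw [← prod_mul_distrib]
    refine prod_congr rfl fun p hp => ?_
    obtain ⟨hp1, hp2⟩ := hT p (hA.1 hp)
    have h4 := rs_sq hp1.one_lt.le
    have h5 := hz.sq p hp1 hp2
    unfold tm
    calc 1 / (p : ℝ) = (rs p * rs p) * z p ^ 2 := by rw [h5, mul_one, h4]
      _ = _ := by ring
  have h1 : es T (tm z) k * es T (tm z) k = es T (fun p => 1 / (p : ℝ)) k +
      ∑ A ∈ powersetCard k T, ∑ B ∈ (powersetCard k T).erase A, (∏ p ∈ A, tm z p) * ∏ p ∈ B, tm z p := by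
    rw [h3, ← sum_add_distrib]
    conv_lhs => unfold es
    rw [sum_mul_sum]
    refine sum_congr rfl fun A hA => ?_
    rw [add_sum_erase _ (fun B => (∏ p ∈ A, tm z p) * ∏ p ∈ B, tm z p) hA]
  rw [h1]
  ring

/-- one block -/
theorem theta_dom {T : Finset ℕ} (hT : ∀ p ∈ T, p.Prime ∧ p ≤ Y) (m : ℕ) {c : ℝ}
    (hc : c ≤ (m.factorial : ℝ) ^ 2 * es T (fun p => 1 / (p : ℝ)) m) :
    Dom Y (fun _ => c) (fun z => FS T z ^ (2 * m)) := by
  have hT1 : ∀ p ∈ T, 1 ≤ p := fun p hp => (hT p hp).1.one_lt.le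
  have h1 := D_pow_ge (Y := Y) hT1 m
  have hD : Pos Y (fun z => FS T z ^ m) := (FS_pos hT1).pow m
  have hE : Pos Y (fun z => (m.factorial : ℝ) * es T (tm z) m) := (es_pos hT1 m).smul (Nat.cast_nonneg _)
  have h2 : Pos Y (fun z => (FS T z ^ m - (m.factorial : ℝ) * es T (tm z) m) * (FS T z ^ m)) := Pos.mul h1 hD
  have h3 : Pos Y (fun z => ((m.factorial : ℝ) * es T (tm z) m) *
      (FS T z ^ m - (m.factorial : ℝ) * es T (tm z) m)) := Pos.mul hE h1
  have h4 := (es_sq hT m).smul (c := (m.factorial : ℝ) ^ 2) (by positivity)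
  have h5 := ((h2.add h3).add h4).add (const_pos (Y := Y) (sub_nonneg.mpr hc))
  refine h5.congr fun z _ => ?_
  beta_reduce
  ring

theorem theta_pos {T : Finset ℕ} (hT : ∀ a ∈ T, 1 ≤ a) (m : ℕ) : Pos Y (fun z => FS T z ^ (2 * m)) :=
  (FS_pos hT).pow _

/-! ### products -/

theorem ms_dom {T A : Finset ℕ} (hT : ∀ p ∈ T, p.Prime) (j : ℕ) (hA : ∀ a ∈ A, 1 ≤ a ∧ cnt T a = j) :
    Dom Y (fun z => FS T z * FS A z) (fun z => ((j + 1 : ℕ) : ℝ) * FS (ms T A) z) := by
  classical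
  have h1 : ∀ z : ℕ → ℝ, Ev Y z → FS T z * FS A z =
      ∑ b ∈ ms T A, (((T ×ˢ A).filter (fun x => x.1 * x.2 = b)).card : ℝ) * (rs b * z b) := by
    intro z hz
    unfold FS
    rw [sum_mul_sum, ← sum_product', ← sum_fiberwise_of_maps_to (t := ms T A) (g := fun x => x.1 * x.2)]
    · refine sum_congr rfl fun b _ => ?_
      rw [sum_congr rfl (g := fun _ => rs b * z b), sum_const, nsmul_eq_mul]
      intro x hx
      rw [mem_filter, mem_product] at hx
      rw [← hx.2, rs_mul, hz.mul _ _ (hT _ hx.1.1).one_lt.le (hA _ hx.1.2).1]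
      ring
    · intro x hx
      rw [ms, mem_image]
      exact ⟨x, hx, rfl⟩
  have h2 : ∀ b ∈ ms T A, ((T ×ˢ A).filter (fun x => x.1 * x.2 = b)).card ≤ j + 1 := by
    intro b hb
    rw [ms, mem_image] at hb
    obtain ⟨⟨p₀, a₀⟩, hpa, rfl⟩ := hb
    rw [mem_product] at hpa
    obtain ⟨ha1, ha2⟩ := hA a₀ hpa.2
    have hp₀ := hT p₀ hpa.1
    have hcnt : cnt T (p₀ * a₀) = j + 1 := by rw [cnt_mul_mem hp₀ ha1 hpa.1, ha2]
    have hne : p₀ * a₀ ≠ 0 := Nat.mul_ne_zero hp₀.ne_zero (by omega)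
    rw [← hcnt]
    unfold cnt
    refine le_trans ?_ (List.toFinset_card_le _)
    refine card_le_card_of_injOn (fun x => x.1) ?_ ?_
    · intro x hx
      rw [mem_coe, mem_filter, mem_product] at hx
      rw [mem_coe, List.mem_toFinset, List.mem_filter, Nat.mem_primeFactorsList hne]
      exact ⟨⟨hT _ hx.1.1, ⟨x.2, hx.2.symm⟩⟩, by simpa using hx.1.1⟩
    · intro x hx y hy hxy
      rw [mem_coe, mem_filter, mem_product] at hx hy
      have hxy' : x.1 = y.1 := hxy
      have h3 : x.1 * x.2 = x.1 * y.2 := by rw [hx.2, hxy', hy.2]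
      have h4 := Nat.eq_of_mul_eq_mul_left (hT _ hx.1.1).pos h3
      exact Prod.ext hxy' h4
  have hms : ∀ b ∈ ms T A, 1 ≤ b := by
    intro b hb
    rw [ms, mem_image] at hb
    obtain ⟨⟨p₀, a₀⟩, hpa, rfl⟩ := hb
    rw [mem_product] at hpa
    exact Nat.mul_pos (hT p₀ hpa.1).pos (hA a₀ hpa.2).1
  have h3 : Pos Y (fun z => ∑ b ∈ ms T A,
      ((((j + 1 : ℕ) : ℝ) - ((T ×ˢ A).filter (fun x => x.1 * x.2 = b)).card) * rs b) * z b) := by
    refine Pos.sum _ fun b hb => (Pos.eval b (hms b hb)).smul (mul_nonneg (sub_nonneg.mpr ?_) (rs_nonneg b))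
    exact_mod_cast h2 b hb
  refine h3.congr fun z hz => ?_
  beta_reduce
  rw [h1 z hz]
  unfold FS
  rw [mul_sum, ← sum_sub_distrib]
  refine sum_congr rfl fun b _ => ?_
  ring

theorem mp_dom {T A : Finset ℕ} {X Z : ℕ} (hT : ∀ p ∈ T, p.Prime) (hTX : ∀ p ∈ T, p ≤ X)
    (hA : ∀ a ∈ A, 1 ≤ a ∧ a ≤ Z ∧ cnt T a = 0) (j : ℕ) :
    Dom Y (fun z => FS T z ^ j * FS A z) (fun z => (j.factorial : ℝ) * FS (mp T A j) z) := by
  induction j with
  | zero =>
    refine Pos.zero.congr fun z _ => ?_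
    beta_reduce
    simp [mp]
  | succ j ih =>
    have h0 := mp_prop hT hTX hA j
    have h1 := ih.mul_left (FS_pos (Y := Y) fun p hp => (hT p hp).one_lt.le)
    have h2 := (ms_dom (Y := Y) hT j (fun a ha => ⟨(h0 a ha).1, (h0 a ha).2.2⟩)).smul
      (c := (j.factorial : ℝ)) (Nat.cast_nonneg _)
    have h3 : Dom Y (fun z => FS T z * (FS T z ^ j * FS A z))
        (fun z => (j.factorial : ℝ) * (((j + 1 : ℕ) : ℝ) * FS (ms T (mp T A j)) z)) := by
      refine h1.trans ?_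
      refine Pos.congr h2 fun z _ => ?_
      beta_reduce
      ring
    refine Pos.congr h3 fun z _ => ?_
    beta_reduce
    rw [Nat.factorial_succ, pow_succ']
    have h4 : mp T A (j + 1) = ms T (mp T A j) := rfl
    rw [h4]
    push_cast
    ring

theorem blocks_dom {T : ℕ → Finset ℕ} {X : ℕ} (hT : ∀ i, ∀ p ∈ T i, p.Prime) (hTX : ∀ i, ∀ p ∈ T i, p ≤ X)
    (hd : ∀ i i', i ≠ i' → Disjoint (T i) (T i')) (j : ℕ → ℕ) (B : ℕ) :
    ∃ A : Finset ℕ, (∀ a ∈ A, 1 ≤ a ∧ a ≤ X ^ (∑ i ∈ range B, j i)) ∧ (∀ i, B ≤ i → ∀ a ∈ A, cnt (T i) a = 0) ∧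
      Dom Y (fun z => ∏ i ∈ range B, FS (T i) z ^ j i)
        (fun z => (∏ i ∈ range B, (j i).factorial : ℝ) * FS A z) := by
  induction B with
  | zero =>
    refine ⟨{1}, ?_, ?_, ?_⟩
    · intro a ha
      rw [mem_singleton] at ha
      subst ha
      simp
    · intro i _ a ha
      rw [mem_singleton] at ha
      subst ha
      simp [cnt]
    · refine Pos.zero.congr fun z hz => ?_
      beta_reduce
      simp [FS, rs, hz.one]
  | succ B ih =>
    obtain ⟨A, hA1, hA2, hA3⟩ := ih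
    have hA' : ∀ a ∈ A, 1 ≤ a ∧ a ≤ X ^ (∑ i ∈ range B, j i) ∧ cnt (T B) a = 0 :=
      fun a ha => ⟨(hA1 a ha).1, (hA1 a ha).2, hA2 B le_rfl a ha⟩
    refine ⟨mp (T B) A (j B), ?_, ?_, ?_⟩
    · intro a ha
      obtain ⟨h1, h2, _⟩ := mp_prop (hT B) (hTX B) hA' (j B) a ha
      refine ⟨h1, h2.trans (le_of_eq ?_)⟩
      rw [sum_range_succ, pow_add, mul_comm]
    · intro i hi a ha
      exact (mp_other (hT B) (hd B i (by omega)) (fun a ha => ⟨(hA1 a ha).1, hA2 i (by omega) a ha⟩) (j B) a ha).2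
    · have h1 := mp_dom (Y := Y) (hT B) (hTX B) hA' (j B)
      have h2 := hA3.mul_left ((FS_pos (Y := Y) fun p hp => (hT B p hp).one_lt.le).pow (j B))
      have h3 := h1.smul (c := ∏ i ∈ range B, ((j i).factorial : ℝ)) (prod_nonneg fun i _ => Nat.cast_nonneg _)
      have h4 : Dom Y (fun z => FS (T B) z ^ j B * ∏ i ∈ range B, FS (T i) z ^ j i)
          (fun z => (∏ i ∈ range B, (j i).factorial : ℝ) *
            (((j B).factorial : ℝ) * FS (mp (T B) A (j B)) z)) := by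
        refine h2.trans ?_
        refine Pos.congr h3 fun z _ => ?_
        beta_reduce
        ring
      refine Pos.congr h4 fun z _ => ?_
      beta_reduce
      rw [prod_range_succ, prod_range_succ]
      ring

end Pool.Agent.H86.QE
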