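import Pool.Agent.H86.QE.A
import Pool.Agent.H86.QC.G

set_option autoImplicit false

/-!
# The functional and the core inequality
-/

namespace Pool.Agent.H86.QE

open Finset
open Pool.Agent.H86.QC
open Pool.Agent.X24.Coset (rs rs_nonneg es pw2)
open Pool.Agent.Q122.FM (kron IsFund LHalf)
open Pool.Agent.H306R2.RZ (gm)

noncomputable section

/-- the product of two characters -/
def zz (D E : ℤ) (n : ℕ) : ℝ := xk D n * xk E n

theorem zz_abs (D E : ℤ) (n : ℕ) : |zz D E n| ≤ 1 := by
  unfold zz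
  rw [abs_mul]
  exact mul_le_one₀ (xk_abs D n) (abs_nonneg _) (xk_abs E n)

/-- the weighted sum over the pairs -/
def QF (S : Finset ℤ) (f : (ℕ → ℝ) → ℝ) : ℝ := ∑ D ∈ S, ∑ E ∈ S, kap (av D) (av E) * f (zz D E)

/-- the weighted sum over the pairs with the smoothed series -/
def LF (S : Finset ℤ) (X : ℝ) (f : (ℕ → ℝ) → ℝ) : ℝ :=
  ∑ D ∈ S, ∑ E ∈ S, kap (av D) (av E) * f (zz D E) * LL X (av D * av E) (zz D E)

/-- no prime factors up to `Y` -/
def Rough (S : Finset ℤ) (Y : ℕ) : Prop := ∀ D ∈ S, ∀ p : ℕ, p.Prime → p ≤ Y → D.natAbs.Coprime p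

theorem ev {S : Finset ℤ} {X R : ℝ} (hA : Adm S X R) {Y : ℕ} (hr : Rough S Y) {D E : ℤ} (hD : D ∈ S)
    (hE : E ∈ S) : Ev Y (zz D E) := by
  have h1 : ∀ D ∈ S, ∀ p : ℕ, p.Prime → p ≤ Y → xk D p * xk D p = 1 := by
    intro D hD p hp hpY
    have h2 := xk_sq D (Or.inl ⟨hA.mod D hD, hA.sqf D hD⟩) p hp.one_lt.le
    rw [if_pos (hr D hD p hp hpY), sq, xk_mul D p p hp.one_lt.le hp.one_lt.le] at h2
    exact h2
  refine ⟨?_, ?_, ?_⟩
  · unfold zz
    rw [xk_one, xk_one, one_mul]
  · intro m n hm hn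
    unfold zz
    rw [xk_mul D m n hm hn, xk_mul E m n hm hn]
    ring
  · intro p hp hpY
    unfold zz
    calc (xk D p * xk E p) ^ 2 = (xk D p * xk D p) * (xk E p * xk E p) := by ring
      _ = 1 := by rw [h1 D hD p hp hpY, h1 E hE p hp hpY, one_mul]

theorem QF_add (S : Finset ℤ) (f g : (ℕ → ℝ) → ℝ) : QF S (fun z => f z + g z) = QF S f + QF S g := by
  unfold QF
  rw [← sum_add_distrib]
  refine sum_congr rfl fun D _ => ?_
  rw [← sum_add_distrib]
  exact sum_congr rfl fun E _ => mul_add _ _ _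

theorem QF_smul (S : Finset ℤ) (c : ℝ) (f : (ℕ → ℝ) → ℝ) : QF S (fun z => c * f z) = c * QF S f := by
  unfold QF
  rw [mul_sum]
  refine sum_congr rfl fun D _ => ?_
  rw [mul_sum]
  refine sum_congr rfl fun E _ => ?_
  ring

theorem LF_add (S : Finset ℤ) (X : ℝ) (f g : (ℕ → ℝ) → ℝ) :
    LF S X (fun z => f z + g z) = LF S X f + LF S X g := by
  unfold LF
  rw [← sum_add_distrib]
  refine sum_congr rfl fun D _ => ?_
  rw [← sum_add_distrib]
  refine sum_congr rfl fun E _ => ?_
  ring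

theorem LF_smul (S : Finset ℤ) (X c : ℝ) (f : (ℕ → ℝ) → ℝ) : LF S X (fun z => c * f z) = c * LF S X f := by
  unfold LF
  rw [mul_sum]
  refine sum_congr rfl fun D _ => ?_
  rw [mul_sum]
  refine sum_congr rfl fun E _ => ?_
  ring

variable {S : Finset ℤ} {X R : ℝ} {Y : ℕ}

theorem QF_congr (hA : Adm S X R) (hr : Rough S Y) {f g : (ℕ → ℝ) → ℝ} (h : ∀ z, Ev Y z → g z = f z) :
    QF S g = QF S f := by
  unfold QF
  exact sum_congr rfl fun D hD => sum_congr rfl fun E hE => by rw [h _ (ev hA hr hD hE)]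

theorem LF_congr (hA : Adm S X R) (hr : Rough S Y) {f g : (ℕ → ℝ) → ℝ} (h : ∀ z, Ev Y z → g z = f z) :
    LF S X g = LF S X f := by
  unfold LF
  exact sum_congr rfl fun D hD => sum_congr rfl fun E hE => by rw [h _ (ev hA hr hD hE)]

theorem QF_nonneg (hA : Adm S X R) (hr : Rough S Y) {f : (ℕ → ℝ) → ℝ} (h : Pos Y f) : 0 ≤ QF S f := by
  induction h with
  | eval n hn =>
    have hav : ∀ D ∈ S, 0 < av D := fun D hD => av_pos (adm_ne hA D hD)
    exact QQ_nonneg hav xk n
  | zero => simp [QF]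
  | add _ _ h1 h2 =>
    rw [QF_add]
    exact add_nonneg h1 h2
  | smul _ hc h1 =>
    rw [QF_smul]
    exact mul_nonneg hc h1
  | congr _ h h1 =>
    rw [QF_congr hA hr h]
    exact h1

theorem QF_mono (hA : Adm S X R) (hr : Rough S Y) {f g : (ℕ → ℝ) → ℝ} (h : Dom Y f g) : QF S f ≤ QF S g := by
  have h1 := QF_nonneg hA hr h
  have h2 : QF S g = QF S (fun z => g z - f z) + QF S f := by
    rw [← QF_add]
    congr 1
    funext z
    ring
  rw [h2]
  linarith

/-- the smoothed series dominates the short sums -/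
theorem LF_ge (hX : 0 < X) (hA : Adm S X R) (hr : Rough S Y) {A : Finset ℕ} (hA1 : ∀ a ∈ A, 1 ≤ a ∧ (a : ℝ) ≤ X)
    {f : (ℕ → ℝ) → ℝ} (h : Pos Y f) : J0 * QF S (fun z => f z * FS A z) ≤ LF S X f := by
  induction h with
  | eval n hn =>
    have hav : ∀ D ∈ S, 0 < av D := fun D hD => av_pos (adm_ne hA D hD)
    have hb := basic S hav xk_abs (fun D m n hm hn => xk_mul D m n hm hn) ({()} : Finset Unit) (fun _ => 1)
      (fun _ => n) (fun _ _ => zero_le_one) (fun _ _ => hn) hX (A.sup id)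
    have e1 : ∀ i j : ℤ, PP ({()} : Finset Unit) (fun _ => (1 : ℝ)) (fun _ => n) xk i j = zz i j n := by
      intro i j
      unfold PP zz
      rw [sum_singleton, one_mul]
    simp only [e1, sum_singleton, one_mul] at hb
    refine le_trans ?_ hb
    have h2 : J0 * QF S (fun z => z n * FS A z) = ∑ a ∈ A, J0 / Real.sqrt a * QQ S av xk (a * n) := by
      have e2 : ∀ a ∈ A, J0 / Real.sqrt a * QQ S av xk (a * n) =
          J0 * ∑ D ∈ S, ∑ E ∈ S, kap (av D) (av E) * (zz D E n * (rs a * zz D E a)) := by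
        intro a ha
        have e3 : rs a = 1 / Real.sqrt a := by
          unfold rs
          rw [Real.rpow_neg (Nat.cast_nonneg _), ← Real.sqrt_eq_rpow, one_div]
        rw [e3]
        unfold QQ
        rw [mul_sum, mul_sum]
        refine sum_congr rfl fun D _ => ?_
        rw [mul_sum, mul_sum]
        refine sum_congr rfl fun E _ => ?_
        rw [xk_mul D a n (hA1 a ha).1 hn, xk_mul E a n (hA1 a ha).1 hn]
        unfold zz
        ring
      rw [sum_congr rfl e2, ← mul_sum]
      congr 1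
      have e4 : QF S (fun z => z n * FS A z) =
          ∑ D ∈ S, ∑ E ∈ S, ∑ a ∈ A, kap (av D) (av E) * (zz D E n * (rs a * zz D E a)) := by
        unfold QF FS
        refine sum_congr rfl fun D _ => sum_congr rfl fun E _ => ?_
        beta_reduce
        rw [mul_sum, mul_sum]
      rw [e4]
      exact (sum_congr rfl fun D _ => sum_comm).trans sum_comm
    rw [h2]
    have hsub : A ⊆ Icc 1 (A.sup id) := by
      intro a ha
      rw [mem_Icc]
      exact ⟨(hA1 a ha).1, le_sup (f := id) ha⟩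
    calc ∑ a ∈ A, J0 / Real.sqrt a * QQ S av xk (a * n) ≤ ∑ a ∈ A, cm X a * QQ S av xk (a * n) :=
          sum_le_sum fun a ha => mul_le_mul_of_nonneg_right (cm_ge (hA1 a ha).1 (hA1 a ha).2) (QQ_nonneg hav xk _)
      _ ≤ ∑ m ∈ Icc 1 (A.sup id), cm X m * QQ S av xk (m * n) := by
          refine sum_le_sum_of_subset_of_nonneg hsub fun m hm _ => mul_nonneg ?_ (QQ_nonneg hav xk _)
          unfold cm
          refine MeasureTheory.setIntegral_nonneg measurableSet_Ioi fun u hu => ?_
          have hu0 : (0 : ℝ) < u := hu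
          positivity
  | zero => simp [QF, LF]
  | @add f g _ _ h1 h2 =>
    rw [LF_add]
    have e : QF S (fun z => (f z + g z) * FS A z) = QF S (fun z => f z * FS A z) + QF S (fun z => g z * FS A z) := by
      rw [← QF_add]
      congr 1
      funext z
      ring
    rw [e, mul_add]
    exact add_le_add h1 h2
  | @smul f c _ hc h1 =>
    rw [LF_smul]
    have e : QF S (fun z => c * f z * FS A z) = c * QF S (fun z => f z * FS A z) := by
      rw [← QF_smul]
      congr 1
      funext z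
      ring
    rw [e]
    have h2 := mul_le_mul_of_nonneg_left h1 hc
    linarith
  | @congr f g _ h h1 =>
    rw [LF_congr hA hr h]
    have e : QF S (fun z => g z * FS A z) = QF S (fun z => f z * FS A z) :=
      QF_congr hA hr fun z hz => by rw [h z hz]
    rw [e]
    exact h1

/-- the upper bound -/
theorem LF_le (hX : 0 < X) (hR : 1 ≤ R) (hA : Adm S X R) {f : (ℕ → ℝ) → ℝ} {P V : ℝ}
    (hf0 : ∀ z, 0 ≤ f z) (hfP : ∀ z : ℕ → ℝ, (∀ n, |z n| ≤ 1) → f z ≤ P) (hV : 0 ≤ V) :
    LF S X f ≤ gm (1 / 2) * V * QF S f +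
      ((S.card : ℝ) + (big S V).card) * (P * (4 * I0 * (R * Real.sqrt X))) := by
  classical
  have hg := gm_pos
  set K : ℝ := 4 * I0 * (R * Real.sqrt X) with hK
  have hav : ∀ D ∈ S, 0 < av D := fun D hD => av_pos (adm_ne hA D hD)
  have hK0 : 0 ≤ K := by
    have := I0_nonneg
    have h1 : 0 ≤ R * Real.sqrt X := mul_nonneg (by linarith) (Real.sqrt_nonneg _)
    positivity
  have hP0 : 0 ≤ P := (hf0 (fun _ => 0)).trans (hfP _ fun n => by norm_num)
  have hpt : ∀ D ∈ S, ∀ E ∈ S, kap (av D) (av E) * f (zz D E) * LL X (av D * av E) (zz D E) ≤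
      gm (1 / 2) * V * (kap (av D) (av E) * f (zz D E)) +
        (if D = E ∨ V ≤ LHalf (D * E) then P * K else 0) := by
    intro D hD E hE
    have hk0 := (kap_pos (hav D hD) (hav E hE)).le
    have hk1 := kap_le (hav D hD) (hav E hE)
    have hf := hf0 (zz D E)
    have hP := hfP (zz D E) (zz_abs D E)
    have h7 : av D * av E ≤ (R * X) ^ 2 := by
      rw [sq]
      exact mul_le_mul (hA.hi D hD) (hA.hi E hE) (hav E hE).le (by positivity)
    have h8 := LL_le (q := av D * av E) hX hR (mul_nonneg (hav D hD).le (hav E hE).le) h7 (x := zz D E) (zz_abs D E)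
    rw [← hK] at h8
    have h9 : kap (av D) (av E) * f (zz D E) ≤ P := by nlinarith
    have h10 : 0 ≤ kap (av D) (av E) * f (zz D E) := mul_nonneg hk0 hf
    split_ifs with hif
    · have h11 : kap (av D) (av E) * f (zz D E) * LL X (av D * av E) (zz D E) ≤ P * K := by
        calc kap (av D) (av E) * f (zz D E) * LL X (av D * av E) (zz D E) ≤
            kap (av D) (av E) * f (zz D E) * K := mul_le_mul_of_nonneg_left ((le_abs_self _).trans h8) h10
          _ ≤ P * K := mul_le_mul_of_nonneg_right h9 hK0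
      have h12 : 0 ≤ gm (1 / 2) * V * (kap (av D) (av E) * f (zz D E)) := by positivity
      linarith
    · push Not at hif
      have h2 := LL_eq (hA.mod D hD) (hA.mod E hE) (hA.sqf D hD) (hA.sqf E hE) (adm_sgn hA hD hE)
        hif.1 (hA.cop D hD E hE hif.1) hX
      have h3 : LL X (av D * av E) (zz D E) = LHalf (D * E) * gm (1 / 2) := h2
      rw [h3, add_zero]
      calc kap (av D) (av E) * f (zz D E) * (LHalf (D * E) * gm (1 / 2)) ≤
          kap (av D) (av E) * f (zz D E) * (V * gm (1 / 2)) :=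
            mul_le_mul_of_nonneg_left (mul_le_mul_of_nonneg_right hif.2.le hg.le) h10
        _ = _ := by ring
  have h1 : LF S X f ≤ ∑ D ∈ S, ∑ E ∈ S, (gm (1 / 2) * V * (kap (av D) (av E) * f (zz D E)) +
        (if D = E ∨ V ≤ LHalf (D * E) then P * K else 0)) := by
    unfold LF
    exact sum_le_sum fun D hD => sum_le_sum fun E hE => hpt D hD E hE
  refine h1.trans ?_
  have e1 : ∑ D ∈ S, ∑ E ∈ S, (gm (1 / 2) * V * (kap (av D) (av E) * f (zz D E)) +
        (if D = E ∨ V ≤ LHalf (D * E) then P * K else 0)) =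
      gm (1 / 2) * V * QF S f + ∑ D ∈ S, ∑ E ∈ S, (if D = E ∨ V ≤ LHalf (D * E) then P * K else 0) := by
    unfold QF
    rw [mul_sum, ← sum_add_distrib]
    refine sum_congr rfl fun D _ => ?_
    rw [mul_sum, ← sum_add_distrib]
  rw [e1]
  refine add_le_add le_rfl ?_
  have e2 : ∑ D ∈ S, ∑ E ∈ S, (if D = E ∨ V ≤ LHalf (D * E) then P * K else 0) =
      (((S ×ˢ S).filter fun p => p.1 = p.2 ∨ V ≤ LHalf (p.1 * p.2)).card : ℝ) * (P * K) := by
    rw [← sum_product', ← sum_filter, sum_const, nsmul_eq_mul]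
  rw [e2]
  refine mul_le_mul_of_nonneg_right ?_ (mul_nonneg hP0 hK0)
  have h2 : (S ×ˢ S).filter (fun p => p.1 = p.2 ∨ V ≤ LHalf (p.1 * p.2)) ⊆
      S.image (fun D => (D, D)) ∪ big S V := by
    intro p hp
    rw [mem_filter, mem_product] at hp
    rw [mem_union]
    by_cases h : p.1 = p.2
    · left
      rw [mem_image]
      exact ⟨p.1, hp.1.1, Prod.ext rfl h⟩
    · right
      unfold big
      rw [mem_filter, mem_product]
      exact ⟨hp.1, h, hp.2.resolve_left h⟩
  have h3 := (card_le_card h2).trans (card_union_le _ _)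
  have h4 : (S.image (fun D => (D, D))).card ≤ S.card := card_image_le
  have h5 : ((S ×ˢ S).filter (fun p => p.1 = p.2 ∨ V ≤ LHalf (p.1 * p.2))).card ≤ S.card + (big S V).card := by
    omega
  exact_mod_cast h5

end

end Pool.Agent.H86.QE
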