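import Pool.Agent.H86.QE.B

set_option autoImplicit false

/-!
# The core inequality
-/

namespace Pool.Agent.H86.QE

open Finset
open Pool.Agent.H86.QC
open Pool.Agent.X24.Coset (rs rs_nonneg es pw2)
open Pool.Agent.Q122.FM (kron IsFund LHalf)
open Pool.Agent.H306R2.RZ (gm)

noncomputable section

variable {S : Finset ℤ} {X R : ℝ} {Y : ℕ}

theorem QF_le (hA : Adm S X R) {f g : (ℕ → ℝ) → ℝ} (h : ∀ z, f z ≤ g z) : QF S f ≤ QF S g := by
  unfold QF
  exact sum_le_sum fun D hD => sum_le_sum fun E hE =>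
    mul_le_mul_of_nonneg_left (h _) (kap_pos (av_pos (adm_ne hA D hD)) (av_pos (adm_ne hA E hE))).le

theorem QF_const (hX : 0 < X) (hR : 1 ≤ R) (hA : Adm S X R) {c : ℝ} (hc : 0 ≤ c) :
    (S.card : ℝ) ^ 2 / R ^ 2 * c ≤ QF S (fun _ => c) := by
  have h1 : ∑ _D ∈ S, ∑ _E ∈ S, 1 / R ^ 2 * c ≤ QF S (fun _ => c) := by
    unfold QF
    refine sum_le_sum fun D hD => sum_le_sum fun E hE => mul_le_mul_of_nonneg_right ?_ hc
    exact kap_ge hX hR (hA.lo D hD) (hA.hi D hD) (hA.lo E hE) (hA.hi E hE)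
  refine le_trans (le_of_eq ?_) h1
  rw [sum_const, sum_const, nsmul_eq_mul, nsmul_eq_mul]
  ring

/-- **The core inequality with several blocks.** -/
theorem core2 (hX : 0 < X) (hR : 1 ≤ R) (hA : Adm S X R) (hr : Rough S Y) (hne : S.Nonempty)
    {T : ℕ → Finset ℕ} {B : ℕ} (hT : ∀ i, ∀ p ∈ T i, p.Prime) (hTY : ∀ i, ∀ p ∈ T i, p ≤ Y)
    (hd : ∀ i i', i ≠ i' → Disjoint (T i) (T i')) {j m : ℕ → ℕ} (hje : ∀ i, Even (j i)) (hjm : ∀ i, j i ≤ m i)
    (hJX : ((Y ^ (∑ i ∈ range B, j i) : ℕ) : ℝ) ≤ X)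
    {w d : ℕ → ℝ} (hw0 : ∀ i, 0 < w i) (hwj : ∀ i, 3 * (j i : ℝ) ≤ w i)
    (hw : ∀ i ∈ range B, w i ^ (2 * m i) ≤ ((m i).factorial : ℝ) ^ 2 * es (T i) (fun p => 1 / (p : ℝ)) (m i))
    (hwd : ∀ i, w i ≤ d i) (hdT : ∀ i, ∀ z : ℕ → ℝ, (∀ n, |z n| ≤ 1) → |FS (T i) z| ≤ d i) :
    J0 * ((S.card : ℝ) ^ 2 * ∏ i ∈ range B, w i ^ (2 * m i)) ≤
      2 * R ^ 2 * (((S.card : ℝ) + (big S (J0 / gm (1 / 2) * (∏ i ∈ range B, (3 : ℝ) ^ j i) / (4 * 2 ^ B))).card) *
        ((∏ i ∈ range B, d i ^ (2 * m i)) * (4 * I0 * (R * Real.sqrt X)))) := by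
  classical
  have hg := gm_pos
  have hJ := J0_pos
  have hI := I0_nonneg
  have hd0 : ∀ i, 0 < d i := fun i => lt_of_lt_of_le (hw0 i) (hwd i)
  obtain ⟨k, hk⟩ : ∃ k : ℕ → ℕ, ∀ i, m i = k i + j i := ⟨fun i => m i - j i, fun i => (Nat.sub_add_cancel (hjm i)).symm⟩
  obtain ⟨A, hA1, _, hA3⟩ := blocks_dom (Y := Y) hT hTY hd j B
  have hT1 : ∀ i, ∀ p ∈ T i, 1 ≤ p := fun i p hp => (hT i p hp).one_lt.le
  set F : ℝ := ∏ i ∈ range B, ((j i).factorial : ℝ) with hF
  have hF0 : 0 < F := prod_pos fun i _ => by exact_mod_cast Nat.factorial_pos _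
  set M : ℝ := QF S (fun z => ∏ i ∈ range B, FS (T i) z ^ (2 * m i)) with hM
  set G : (ℕ → ℝ) → ℝ := fun z => ∏ i ∈ range B, FS (T i) z ^ (2 * k i + j i) with hG
  set W : ℝ := ∏ i ∈ range B, w i ^ (2 * m i) with hW
  set J3 : ℝ := ∏ i ∈ range B, (3 : ℝ) ^ j i with hJ3
  have hJ30 : 0 < J3 := prod_pos fun i _ => by positivity
  set V : ℝ := J0 / gm (1 / 2) * J3 / (4 * 2 ^ B) with hV
  have hV0 : 0 < V := by positivity
  set P : ℝ := ∏ i ∈ range B, d i ^ (2 * k i + j i) with hP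
  have hev : ∀ i, Even (2 * k i + j i) := fun i => (even_two_mul _).add (hje i)
  have hGpos : Pos Y G := Pos.prod _ fun i _ => (FS_pos (hT1 i)).pow _
  have hG0 : ∀ z, 0 ≤ G z := fun z => prod_nonneg fun i _ => (hev i).pow_nonneg _
  have hGP : ∀ z : ℕ → ℝ, (∀ n, |z n| ≤ 1) → G z ≤ P := by
    intro z hz
    refine prod_le_prod (fun i _ => (hev i).pow_nonneg _) fun i _ => ?_
    rw [← (hev i).pow_abs]
    exact pow_le_pow_left₀ (abs_nonneg _) (hdT i z hz) _
  -- positivity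
  have h1 : M ≤ F * QF S (fun z => G z * FS A z) := by
    rw [← QF_smul]
    refine QF_mono hA hr ?_
    refine Pos.congr (hA3.mul_left hGpos) fun z _ => ?_
    beta_reduce
    have e : ∏ i ∈ range B, FS (T i) z ^ (2 * m i) = G z * ∏ i ∈ range B, FS (T i) z ^ j i := by
      rw [hG, ← prod_mul_distrib]
      refine prod_congr rfl fun i _ => ?_
      rw [← pow_add, hk i]
      congr 1
      omega
    rw [e]
    ring
  have h2 : J0 * QF S (fun z => G z * FS A z) ≤ LF S X G := by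
    refine LF_ge hX hA hr (fun a ha => ⟨(hA1 a ha).1, ?_⟩) hGpos
    refine le_trans ?_ hJX
    exact_mod_cast (hA1 a ha).2
  have h3 := LF_le hX hR hA hG0 hGP hV0.le
  -- the moments
  have hTp : ∀ i, ∀ p ∈ T i, p.Prime ∧ p ≤ Y := fun i p hp => ⟨hT i p hp, hTY i p hp⟩
  have hth : ∀ i ∈ range B, Dom Y (fun _ => w i ^ (2 * m i)) (fun z => FS (T i) z ^ (2 * m i)) := fun i hi =>
    theta_dom (hTp i) (m i) (hw i hi)
  have hcp : ∀ i, 0 ≤ w i ^ (2 * m i) := fun i => by have := hw0 i; positivity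
  have hW0 : 0 < W := prod_pos fun i _ => by have := hw0 i; positivity
  have hM1 : (S.card : ℝ) ^ 2 / R ^ 2 * W ≤ M := by
    have g1 := Dom.prod (Y := Y) (range B) hth (fun i _ => const_pos (hcp i)) (fun i _ => theta_pos (hT1 i) (m i))
    exact (QF_const hX hR hA hW0.le).trans (QF_mono hA hr g1)
  have hM2 : (∏ i ∈ range B, w i ^ j i) * QF S G ≤ 2 ^ B * M := by
    have h0 : ∀ i ∈ range B, Dom Y (fun z => FS (T i) z ^ (2 * m i) + w i ^ (2 * m i))
        (fun z => 2 * FS (T i) z ^ (2 * m i)) := by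
      intro i hi
      refine Pos.congr (hth i hi) fun z _ => ?_
      beta_reduce
      ring
    have g1 := Dom.prod (Y := Y) (range B) h0
      (fun i _ => Pos.add (theta_pos (hT1 i) (m i)) (const_pos (hcp i)))
      (fun i _ => (theta_pos (hT1 i) (m i)).smul (c := 2) (by norm_num))
    have g2 := QF_mono hA hr g1
    have g3 : QF S (fun z => ∏ i ∈ range B, (2 * FS (T i) z ^ (2 * m i))) = 2 ^ B * M := by
      rw [hM, ← QF_smul]
      congr 1
      funext z
      rw [prod_mul_distrib, prod_const, card_range]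
    rw [g3] at g2
    refine le_trans ?_ g2
    rw [← QF_smul]
    refine QF_le hA fun z => ?_
    rw [hG, ← prod_mul_distrib]
    refine prod_le_prod (fun i _ => mul_nonneg (pow_nonneg (hw0 i).le _) ((hev i).pow_nonneg _)) fun i _ => ?_
    have g4 := pw2 (abs_nonneg (FS (T i) z)) (hw0 i).le (k i) (j i)
    rw [(hev i).pow_abs, (even_two_mul _).pow_abs, ← hk i] at g4
    exact g4
  -- the conclusion
  have hfi : ∀ i, (3 : ℝ) ^ j i * (j i).factorial ≤ w i ^ j i := by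
    intro i
    calc (3 : ℝ) ^ j i * (j i).factorial ≤ 3 ^ j i * (j i : ℝ) ^ j i := by
          gcongr
          exact_mod_cast Nat.factorial_le_pow (j i)
      _ = (3 * (j i : ℝ)) ^ j i := by rw [mul_pow]
      _ ≤ w i ^ j i := pow_le_pow_left₀ (by positivity) (hwj i) _
  have hfac : J3 * F ≤ ∏ i ∈ range B, w i ^ j i := by
    rw [hJ3, hF, ← prod_mul_distrib]
    exact prod_le_prod (fun i _ => by positivity) fun i _ => hfi i
  have hcard : (0 : ℝ) < S.card := by exact_mod_cast hne.card_pos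
  have hM0 : 0 ≤ M := le_trans (by positivity) hM1
  have hQG0 : 0 ≤ QF S G := QF_nonneg hA hr hGpos
  set N : ℝ := (S.card : ℝ) + (big S V).card with hN
  have hN0 : 0 ≤ N := by positivity
  set K : ℝ := 4 * I0 * (R * Real.sqrt X) with hK
  have hK0 : 0 ≤ K := by
    have h1 : 0 ≤ R * Real.sqrt X := mul_nonneg (by linarith) (Real.sqrt_nonneg _)
    positivity
  have e1 : F * P ≤ ∏ i ∈ range B, d i ^ (2 * m i) := by
    rw [hF, hP, ← prod_mul_distrib]
    refine prod_le_prod (fun i _ => by have := hd0 i; positivity) fun i _ => ?_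
    have h2 : ((j i).factorial : ℝ) ≤ d i ^ j i := by
      have h3 := hfi i
      have h4 : (1 : ℝ) ≤ 3 ^ j i := one_le_pow₀ (by norm_num)
      have h5 : (0 : ℝ) ≤ (j i).factorial := Nat.cast_nonneg _
      have h6 : w i ^ j i ≤ d i ^ j i := pow_le_pow_left₀ (hw0 i).le (hwd i) _
      nlinarith
    have h7 : d i ^ (2 * m i) = d i ^ j i * d i ^ (2 * k i + j i) := by
      rw [← pow_add, hk i]
      congr 1
      omega
    rw [h7]
    have := hd0 i
    exact mul_le_mul_of_nonneg_right h2 (by positivity)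
  have e2 : F * (gm (1 / 2) * V * QF S G) ≤ J0 * M / 4 := by
    have g1 := mul_le_mul_of_nonneg_right hfac hQG0
    have g2 : F * (gm (1 / 2) * V * QF S G) = J0 * (J3 * F * QF S G) / (4 * 2 ^ B) := by
      rw [hV]
      field_simp
    rw [g2, div_le_iff₀ (by positivity)]
    have g3 : (0 : ℝ) < 2 ^ B := by positivity
    have g4 : J0 * (J3 * F * QF S G) ≤ J0 * (2 ^ B * M) := mul_le_mul_of_nonneg_left (g1.trans hM2) hJ.le
    calc J0 * (J3 * F * QF S G) ≤ J0 * (2 ^ B * M) := g4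
      _ = J0 * M / 4 * (4 * 2 ^ B) := by ring
  have e3 : J0 * M ≤ F * (gm (1 / 2) * V * QF S G) + N * ((F * P) * K) := by
    calc J0 * M ≤ J0 * (F * QF S (fun z => G z * FS A z)) := mul_le_mul_of_nonneg_left h1 hJ.le
      _ = F * (J0 * QF S (fun z => G z * FS A z)) := by ring
      _ ≤ F * (gm (1 / 2) * V * QF S G + N * (P * K)) := mul_le_mul_of_nonneg_left (h2.trans h3) hF0.le
      _ = _ := by ring
  have e4 : N * ((F * P) * K) ≤ N * ((∏ i ∈ range B, d i ^ (2 * m i)) * K) :=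
    mul_le_mul_of_nonneg_left (mul_le_mul_of_nonneg_right e1 hK0) hN0
  have e5 : J0 * M ≤ 2 * (N * ((∏ i ∈ range B, d i ^ (2 * m i)) * K)) := by
    have h7 : 0 ≤ J0 * M := mul_nonneg hJ.le hM0
    linarith
  have hR0 : 0 < R := by linarith
  have e6 : J0 * ((S.card : ℝ) ^ 2 * W) ≤ R ^ 2 * (J0 * M) := by
    have g1 := mul_le_mul_of_nonneg_left hM1 (by positivity : 0 ≤ R ^ 2 * J0)
    refine le_trans (le_of_eq ?_) (g1.trans (le_of_eq ?_))
    · field_simp
    · ring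
  calc J0 * ((S.card : ℝ) ^ 2 * W) ≤ R ^ 2 * (J0 * M) := e6
    _ ≤ R ^ 2 * (2 * (N * ((∏ i ∈ range B, d i ^ (2 * m i)) * K))) := mul_le_mul_of_nonneg_left e5 (by positivity)
    _ = _ := by ring

/-- the same, with conditions for `i < B` only -/
theorem core3 (hX : 0 < X) (hR : 1 ≤ R) (hA : Adm S X R) (hr : Rough S Y) (hne : S.Nonempty)
    {T : ℕ → Finset ℕ} {B : ℕ} (hT : ∀ i < B, ∀ p ∈ T i, p.Prime) (hTY : ∀ i < B, ∀ p ∈ T i, p ≤ Y)
    (hd : ∀ i < B, ∀ i' < B, i ≠ i' → Disjoint (T i) (T i')) {j m : ℕ → ℕ} (hje : ∀ i < B, Even (j i))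
    (hjm : ∀ i < B, j i ≤ m i)
    (hJX : ((Y ^ (∑ i ∈ range B, j i) : ℕ) : ℝ) ≤ X)
    {w d : ℕ → ℝ} (hw0 : ∀ i < B, 0 < w i) (hwj : ∀ i < B, 3 * (j i : ℝ) ≤ w i)
    (hw : ∀ i < B, w i ^ (2 * m i) ≤ ((m i).factorial : ℝ) ^ 2 * es (T i) (fun p => 1 / (p : ℝ)) (m i))
    (hwd : ∀ i < B, w i ≤ d i) (hdT : ∀ i < B, ∀ z : ℕ → ℝ, (∀ n, |z n| ≤ 1) → |FS (T i) z| ≤ d i) :
    J0 * ((S.card : ℝ) ^ 2 * ∏ i ∈ range B, w i ^ (2 * m i)) ≤
      2 * R ^ 2 * (((S.card : ℝ) + (big S (J0 / gm (1 / 2) * (∏ i ∈ range B, (3 : ℝ) ^ j i) / (4 * 2 ^ B))).card) *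
        ((∏ i ∈ range B, d i ^ (2 * m i)) * (4 * I0 * (R * Real.sqrt X)))) := by
  have e1 : ∏ i ∈ range B, (3 : ℝ) ^ j i = ∏ i ∈ range B, (3 : ℝ) ^ (if i < B then j i else 0) :=
    prod_congr rfl fun i hi => by rw [if_pos (mem_range.mp hi)]
  have e2 : ∏ i ∈ range B, d i ^ (2 * m i) =
      ∏ i ∈ range B, (if i < B then d i else 1) ^ (2 * (if i < B then m i else 0)) :=
    prod_congr rfl fun i hi => by rw [if_pos (mem_range.mp hi), if_pos (mem_range.mp hi)]
  have e3 : ∏ i ∈ range B, w i ^ (2 * m i) =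
      ∏ i ∈ range B, (if i < B then w i else 1) ^ (2 * (if i < B then m i else 0)) :=
    prod_congr rfl fun i hi => by rw [if_pos (mem_range.mp hi), if_pos (mem_range.mp hi)]
  have e4 : ∑ i ∈ range B, j i = ∑ i ∈ range B, (if i < B then j i else 0) :=
    sum_congr rfl fun i hi => by rw [if_pos (mem_range.mp hi)]
  rw [e2, e3, e1]
  rw [e4] at hJX
  refine core2 hX hR hA hr hne (T := fun i => if i < B then T i else ∅) ?_ ?_ ?_
    (j := fun i => if i < B then j i else 0) (m := fun i => if i < B then m i else 0) ?_ ?_ hJX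
    (w := fun i => if i < B then w i else 1) (d := fun i => if i < B then d i else 1) ?_ ?_ ?_ ?_ ?_
  · intro i p hp
    by_cases h : i < B
    · simp only [if_pos h] at hp
      exact hT i h p hp
    · simp [if_neg h] at hp
  · intro i p hp
    by_cases h : i < B
    · simp only [if_pos h] at hp
      exact hTY i h p hp
    · simp [if_neg h] at hp
  · intro i i' hne
    by_cases h : i < B
    · by_cases h' : i' < B
      · simp only [if_pos h, if_pos h']
        exact hd i h i' h' hne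
      · simp [if_neg h']
    · simp [if_neg h]
  · intro i
    by_cases h : i < B
    · simp only [if_pos h]
      exact hje i h
    · simp [if_neg h]
  · intro i
    by_cases h : i < B
    · simp only [if_pos h]
      exact hjm i h
    · simp [if_neg h]
  · intro i
    by_cases h : i < B
    · simp only [if_pos h]
      exact hw0 i h
    · simp [if_neg h]
  · intro i
    by_cases h : i < B
    · simp only [if_pos h]
      exact hwj i h
    · simp [if_neg h]
  · intro i hi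
    simp only [if_pos (mem_range.mp hi)]
    exact hw i (mem_range.mp hi)
  · intro i
    by_cases h : i < B
    · simp only [if_pos h]
      exact hwd i h
    · simp [if_neg h]
  · intro i z hz
    by_cases h : i < B
    · simp only [if_pos h]
      exact hdT i h z hz
    · simp [if_neg h, FS]

end

end Pool.Agent.H86.QE
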