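import Pool.Agent.H86.QE.D

set_option autoImplicit false

/-!
# Large central values in arbitrary sets
-/

namespace Pool.Agent.H86.QE

open Finset Filter Topology
open Pool.Agent.H86.QC
open Pool.Agent.X24.Coset (ev_pow ev_c3)
open Pool.Agent.Q122.FM (kron IsFund LHalf)
open Pool.Agent.H306R2.RZ (gm)

theorem rough_few {S : Finset ℤ} {X R : ℝ} (hA : Adm S X R) (Z : ℕ) :
    ∃ T ⊆ S, Rough T Z ∧ S.card ≤ T.card + Z := by
  classical
  refine ⟨S.filter fun D : ℤ => ∀ p : ℕ, p.Prime → p ≤ Z → D.natAbs.Coprime p, filter_subset _ _, ?_, ?_⟩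
  · intro D hD
    exact (mem_filter.1 hD).2
  · have h1 : (S.filter fun D : ℤ => ¬ ∀ p : ℕ, p.Prime → p ≤ Z → D.natAbs.Coprime p).card ≤ (Icc 1 Z).card := by
      have key : ∀ D ∈ S.filter (fun D : ℤ => ¬ ∀ p : ℕ, p.Prime → p ≤ Z → D.natAbs.Coprime p),
          D ∈ S ∧ D.natAbs.minFac.Prime ∧ D.natAbs.minFac ≤ Z := by
        intro D hD
        obtain ⟨h1, h2⟩ := mem_filter.1 hD
        push Not at h2
        obtain ⟨p, hp, hpZ, h3⟩ := h2
        have h4 : p ∣ D.natAbs := by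
          by_contra h5
          exact h3 ((Nat.Prime.coprime_iff_not_dvd hp).2 h5).symm
        have h5 : D.natAbs ≠ 1 := by
          intro h
          rw [h] at h4
          exact hp.one_lt.ne' (Nat.dvd_one.1 h4)
        exact ⟨h1, Nat.minFac_prime h5, (Nat.minFac_le_of_dvd hp.two_le h4).trans hpZ⟩
      refine card_le_card_of_injOn (fun D : ℤ => D.natAbs.minFac) ?_ ?_
      · intro D hD
        obtain ⟨-, h2, h3⟩ := key D hD
        rw [mem_coe, mem_Icc]
        exact ⟨h2.one_le, h3⟩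
      · intro D hD E hE h
        obtain ⟨hD1, hD2, -⟩ := key D hD
        obtain ⟨hE1, -, -⟩ := key E hE
        by_contra hne
        simp only at h
        have d1 : D.natAbs.minFac ∣ D.natAbs := Nat.minFac_dvd _
        have d2 : D.natAbs.minFac ∣ E.natAbs := by
          rw [h]
          exact Nat.minFac_dvd _
        have hc := hA.cop D hD1 E hE1 hne
        rw [Int.isCoprime_iff_gcd_eq_one, Int.gcd] at hc
        have := Nat.dvd_gcd d1 d2
        rw [hc] at this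
        exact hD2.one_lt.ne' (Nat.dvd_one.1 this)
    rw [Nat.card_Icc, Nat.add_sub_cancel] at h1
    have h2 := card_filter_add_card_filter_not (s := S)
      (fun D : ℤ => ∀ p : ℕ, p.Prime → p ≤ Z → D.natAbs.Coprime p)
    omega

theorem adm_subset {S T : Finset ℤ} {X R : ℝ} (h : T ⊆ S) (hA : Adm S X R) : Adm T X R :=
  ⟨fun D hD => hA.mod D (h hD), fun D hD => hA.sqf D (h hD), fun D hD => hA.lo D (h hD),
    fun D hD => hA.hi D (h hD), hA.sgn.imp (fun g D hD => g D (h hD)) (fun g D hD => g D (h hD)),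
    fun D hD E hE => hA.cop D (h hD) E (h hE)⟩

theorem big_mono {S T : Finset ℤ} (h : T ⊆ S) (V : ℝ) : (big T V).card ≤ (big S V).card := by
  apply card_le_card
  intro p hp
  unfold big at hp ⊢
  rw [mem_filter, mem_product] at hp ⊢
  exact ⟨⟨h hp.1.1, h hp.1.2⟩, hp.2⟩

/-- the size of the large values -/
noncomputable def VV (c X : ℝ) : ℝ :=
  Real.exp (c * √(Real.log X * Real.log (Real.log (Real.log X)) / Real.log (Real.log X)))

theorem extreme {δ ε R : ℝ} (hδ : 0 < δ) (hε : 0 < ε) (hR : 1 ≤ R) : ∃ c : ℝ, 0 < c ∧ ∃ X₀ : ℝ, ∀ X : ℝ, X₀ ≤ X →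
    ∀ S : Finset ℤ, Fml S X R → X ^ (1 / 2 + δ) ≤ S.card →
      (S.card : ℝ) ^ 2 * X ^ (-(1 / 2 + ε)) ≤ (big S (VV c X)).card := by
  have hJ := J0_pos
  have hI := I0_nonneg
  have hg := gm_pos
  set δ' : ℝ := min (min δ ε / 100) (1 / 64) with hδ'
  have hδ'0 : 0 < δ' := lt_min (div_pos (lt_min hδ hε) (by norm_num)) (by norm_num)
  have hδ'1 : δ' ≤ 1 / 64 := min_le_right _ _
  have hδ'2 : δ' ≤ δ / 100 := (min_le_left _ _).trans (div_le_div_of_nonneg_right (min_le_left _ _) (by norm_num))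
  have hδ'3 : δ' ≤ ε / 100 := (min_le_left _ _).trans (div_le_div_of_nonneg_right (min_le_right _ _) (by norm_num))
  set C : ℝ := 8 * I0 * R ^ 3 / J0 + 1 with hC
  have hC0 : 0 < C := by positivity
  set c0 : ℝ := √(δ' / 384) / 12 with hc0
  have hc00 : 0 < c0 := by positivity
  obtain ⟨X₁, hX₁, hred⟩ := reduce hδ R
  -- eventual inequalities
  have t0 : Tendsto (fun X : ℝ => Real.log X) atTop atTop := Real.tendsto_log_atTop
  have t1 : Tendsto (fun X : ℝ => Real.log (Real.log X)) atTop atTop := Real.tendsto_log_atTop.comp t0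
  have t2 : Tendsto (fun X : ℝ => Real.log (Real.log (Real.log X))) atTop atTop := Real.tendsto_log_atTop.comp t1
  have a1 := t1.eventually_ge_atTop 8
  have a2 := t1.eventually (ev_pow 1 8 1 (by norm_num) one_pos)
  have a3 := t2.eventually (ev_c3 δ' hδ'0)
  have a4 := t2.eventually_ge_atTop 1
  have a5 := t0.eventually (ev_pow 3 677376 δ' (by norm_num) hδ'0)
  have a6 := t0.eventually (ev_pow 4 4 1 (by norm_num) one_pos)
  have a7 := ev_pow 3 8 1 (by norm_num) one_pos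
  have a8 : ∀ᶠ X : ℝ in atTop, 400 * C ≤ X ^ (min δ ε / 4) :=
    (tendsto_rpow_atTop (by have := lt_min hδ hε; positivity)).eventually_ge_atTop _
  have a9 := t1.eventually_ge_atTop (Real.log (Real.log (gm (1 / 2) / J0 + Real.exp 1) ^ 2 / (c0 / 2) ^ 2 + 1) + 1)
  have a10 := t0.eventually (ev_pow 2 (Real.log (gm (1 / 2) / J0 + Real.exp 1) ^ 2 / (c0 / 2) ^ 2 + 1) 1
    (by positivity) one_pos)
  obtain ⟨X₂, hX₂⟩ := eventually_atTop.1 (a1.and (a2.and (a3.and (a4.and (a5.and (a6.and (a7.and (a8.and a10))))))))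
  refine ⟨c0 / 2, by positivity, max (max X₁ X₂) 16, fun X hX S hS hcard => ?_⟩
  obtain ⟨b1, b2, b3, b4, b5, b6, b7, b8, b10⟩ := hX₂ X ((le_max_right _ _).trans ((le_max_left _ _).trans hX))
  have hX16 : 16 ≤ X := (le_max_right _ _).trans hX
  have hX0 : 0 < X := by linarith
  have hX1 : 1 ≤ X := by linarith
  obtain ⟨T, hTS, hAT, hT1, hT2⟩ := hred X ((le_max_left _ _).trans ((le_max_left _ _).trans hX)) S hS hcard
  set L := Real.log X with hL
  set u := Real.log L with hu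
  set v := Real.log u with hv
  have hu0 : 0 < u := by linarith
  have hL0 : 0 < L := by
    by_contra h
    push Not at h
    have h8 : (8 : ℝ) ≤ Real.log L := b1
    by_cases hz : L = 0
    · rw [hz, Real.log_zero] at h8
      linarith
    · have h3 : 4 * Real.log L ^ 4 ≤ 1 * L := b6
      have h4 : 0 ≤ 4 * Real.log L ^ 4 := by positivity
      have h5 : L < 0 := lt_of_le_of_ne h hz
      linarith
  set Z : ℕ := ⌈L ^ 3⌉₊ with hZ
  obtain ⟨T', hT'T, hrough, hcT'⟩ := rough_few hAT Z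
  have hAT' := adm_subset hT'T hAT
  -- sizes
  have hZle : (Z : ℝ) ≤ X / 4 ^ 1 / 1 := by
    have h1 : (Z : ℝ) < L ^ 3 + 1 := Nat.ceil_lt_add_one (by positivity)
    have h2 : 8 * L ^ 3 ≤ 1 * X := b7
    rw [pow_one, div_one]
    linarith
  have hT0 : (0 : ℝ) < T.card := lt_of_lt_of_le (Real.rpow_pos_of_pos hX0 _) hT1
  have hZ2 : (Z : ℝ) ≤ T.card / 2 := by
    -- `Z ≤ L ^ 3 + 1 ≤ X ^ (1/2) / 2`
    have h0 : X ^ (1 / 2 + δ / 2) ≤ T.card := hT1
    have h1 : (Z : ℝ) < L ^ 3 + 1 := Nat.ceil_lt_add_one (by positivity)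
    have h2 : X ^ (1 / 2 : ℝ) ≤ X ^ (1 / 2 + δ / 2) := Real.rpow_le_rpow_of_exponent_le hX1 (by linarith)
    have h3 : L ^ 3 + 1 ≤ X ^ (1 / 2 : ℝ) / 2 := by
      have h4 : X ^ (1 / 2 : ℝ) = Real.exp (L / 2) := by
        rw [Real.rpow_def_of_pos hX0, ← hL]
        ring_nf
      rw [h4]
      have hL400 : 1000 ≤ L := by
        have h5 : 4 * u ^ 4 ≤ 1 * L := b6
        have h6 : (8 : ℝ) ^ 4 ≤ u ^ 4 := pow_le_pow_left₀ (by norm_num) b1 4
        norm_num at h6
        linarith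
      have h7 : (L / 8) ^ 4 ≤ Real.exp (L / 2) := by
        have h8 : Real.exp (L / 2) = Real.exp (L / 8) ^ 4 := by
          rw [← Real.exp_nat_mul]
          congr 1
          push_cast
          ring
        rw [h8]
        have h9 := Real.add_one_le_exp (L / 8)
        exact pow_le_pow_left₀ (by positivity) (by linarith) 4
      have h10 : 2 * (L ^ 3 + 1) ≤ (L / 8) ^ 4 := by
        have h11 : (L / 8) ^ 4 = L ^ 3 * (L / 4096) := by ring
        rw [h11]
        have h12 : 4096 * 4 ≤ L := by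
          have h5 : 4 * u ^ 4 ≤ 1 * L := b6
          have h6 : (8 : ℝ) ^ 4 ≤ u ^ 4 := pow_le_pow_left₀ (by norm_num) b1 4
          norm_num at h6
          linarith
        have h13 : 1 ≤ L ^ 3 := one_le_pow₀ (by linarith)
        nlinarith
      linarith
    linarith
  have hcT'R : (T.card : ℝ) ≤ T'.card + Z := by exact_mod_cast hcT'
  have hTT' : (T.card : ℝ) ≤ 2 * T'.card := by linarith
  have hT'0 : (0 : ℝ) < T'.card := by linarith
  have hne : T'.Nonempty := by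
    rw [← card_pos]
    exact_mod_cast hT'0
  -- the explicit theorem
  have hmain := explicit hδ'0 hδ'1 hX0 hL hu hv b1 (by linarith) b3 b4 b5 (by linarith) hR hAT' hne
    (Z := Z) (Nat.le_ceil _) hrough
  have hexp : Real.exp (10 * δ' * L) = X ^ (10 * δ') := by
    rw [Real.rpow_def_of_pos hX0, ← hL]
    ring_nf
  rw [hexp, ← hc0] at hmain
  set V1 : ℝ := J0 / gm (1 / 2) * Real.exp (c0 * √(L * v / u)) with hV1
  set N : ℝ := ((big T' V1).card : ℝ) with hN
  -- the size of the values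
  have hVV : VV (c0 / 2) X ≤ V1 := by
    unfold VV
    rw [← hL, ← hu, ← hv, hV1]
    set s := √(L * v / u) with hs
    have h1 : Real.log (gm (1 / 2) / J0 + Real.exp 1) ≤ c0 / 2 * s := by
      have hlog0 : 0 ≤ Real.log (gm (1 / 2) / J0 + Real.exp 1) := by
        apply Real.log_nonneg
        have h3 := Real.add_one_le_exp (1 : ℝ)
        have h4 : 0 ≤ gm (1 / 2) / J0 := by positivity
        linarith
      have h2 : (Real.log (gm (1 / 2) / J0 + Real.exp 1) / (c0 / 2)) ^ 2 ≤ L * v / u := by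
        rw [div_pow, le_div_iff₀ hu0]
        have h3 : (Real.log (gm (1 / 2) / J0 + Real.exp 1) ^ 2 / (c0 / 2) ^ 2 + 1) * u ^ 2 ≤ 1 * L := b10
        have h4 : 0 ≤ Real.log (gm (1 / 2) / J0 + Real.exp 1) ^ 2 / (c0 / 2) ^ 2 := by positivity
        have h5 : u ≤ u ^ 2 := by nlinarith
        have h6 : L ≤ L * v := by nlinarith
        nlinarith
      have h3 := Real.le_sqrt_of_sq_le h2
      rw [← hs, div_le_iff₀ (by positivity)] at h3
      linarith
    have h2 : gm (1 / 2) / J0 ≤ Real.exp (c0 / 2 * s) := by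
      have h3 : gm (1 / 2) / J0 ≤ gm (1 / 2) / J0 + Real.exp 1 := by linarith [Real.exp_pos 1]
      refine h3.trans ?_
      rw [← Real.log_le_iff_le_exp (by positivity)]
      exact h1
    have h3 : Real.exp (c0 * s) = Real.exp (c0 / 2 * s) * Real.exp (c0 / 2 * s) := by
      rw [← Real.exp_add]
      congr 1
      ring
    rw [h3]
    have h4 : (1 : ℝ) ≤ J0 / gm (1 / 2) * Real.exp (c0 / 2 * s) := by
      rw [div_le_iff₀ hJ] at h2
      rw [div_mul_eq_mul_div, le_div_iff₀ hg]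
      linarith
    have h5 := Real.exp_pos (c0 / 2 * s)
    nlinarith
  have hN2 : N ≤ (big S (VV (c0 / 2) X)).card := by
    rw [hN]
    exact_mod_cast (big_anti T' hVV).trans (big_mono (hT'T.trans hTS) _)
  refine le_trans ?_ hN2
  -- the count
  have hsq : Real.sqrt X = X ^ (1 / 2 : ℝ) := Real.sqrt_eq_rpow X
  have hN0 : 0 ≤ N := Nat.cast_nonneg _
  have k1 : (T'.card : ℝ) ^ 2 ≤ C * X ^ (1 / 2 + 10 * δ') * ((T'.card : ℝ) + N) := by
    have h1 : X ^ (1 / 2 + 10 * δ') = X ^ (10 * δ') * Real.sqrt X := by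
      rw [hsq, ← Real.rpow_add hX0]
      congr 1
      ring
    rw [h1]
    have h2 : (T'.card : ℝ) ^ 2 ≤ 8 * I0 * R ^ 3 / J0 * (X ^ (10 * δ') * Real.sqrt X) * ((T'.card : ℝ) + N) := by
      have h3 : 8 * I0 * R ^ 3 / J0 * (X ^ (10 * δ') * Real.sqrt X) * ((T'.card : ℝ) + N) =
          (2 * R ^ 2 * (((T'.card : ℝ) + N) * (X ^ (10 * δ') * (4 * I0 * (R * Real.sqrt X))))) / J0 := by
        field_simp
        ring
      rw [h3, le_div_iff₀ hJ]
      linarith
    refine h2.trans ?_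
    have h4 : 0 ≤ X ^ (10 * δ') * Real.sqrt X := mul_nonneg (Real.rpow_nonneg hX0.le _) (Real.sqrt_nonneg _)
    have h5 : 8 * I0 * R ^ 3 / J0 ≤ C := by rw [hC]; linarith
    gcongr
  have hmin0 : 0 < min δ ε := lt_min hδ hε
  have k2 : C * X ^ (1 / 2 + 10 * δ') ≤ T'.card / 2 := by
    have h1 : X ^ (1 / 2 + δ / 2) ≤ 2 * T'.card := hT1.trans hTT'
    have h2 : X ^ (1 / 2 + 10 * δ') * X ^ (min δ ε / 4) ≤ X ^ (1 / 2 + δ / 2) := by
      rw [← Real.rpow_add hX0]
      apply Real.rpow_le_rpow_of_exponent_le hX1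
      have h3 := min_le_left δ ε
      linarith
    have h4 : 0 < X ^ (1 / 2 + 10 * δ') := Real.rpow_pos_of_pos hX0 _
    have h5 : X ^ (1 / 2 + 10 * δ') * (400 * C) ≤ X ^ (1 / 2 + 10 * δ') * X ^ (min δ ε / 4) :=
      mul_le_mul_of_nonneg_left b8 h4.le
    nlinarith
  have k3 : (T'.card : ℝ) ^ 2 / 2 ≤ C * X ^ (1 / 2 + 10 * δ') * N := by nlinarith
  have k4 : (S.card : ℝ) ^ 2 ≤ 64 * (T'.card : ℝ) ^ 2 := by
    have h1 : (S.card : ℝ) ≤ 8 * T'.card := by linarith
    have h2 := pow_le_pow_left₀ (Nat.cast_nonneg S.card) h1 2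
    nlinarith
  have k5 : (S.card : ℝ) ^ 2 ≤ 128 * C * X ^ (1 / 2 + 10 * δ') * N := by nlinarith
  have k6 : 128 * C * X ^ (1 / 2 + 10 * δ') ≤ X ^ (1 / 2 + ε) := by
    have h2 : X ^ (1 / 2 + 10 * δ') * X ^ (min δ ε / 4) ≤ X ^ (1 / 2 + ε) := by
      rw [← Real.rpow_add hX0]
      apply Real.rpow_le_rpow_of_exponent_le hX1
      have h3 := min_le_right δ ε
      linarith
    have h4 : 0 < X ^ (1 / 2 + 10 * δ') := Real.rpow_pos_of_pos hX0 _
    have h5 : X ^ (1 / 2 + 10 * δ') * (400 * C) ≤ X ^ (1 / 2 + 10 * δ') * X ^ (min δ ε / 4) :=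
      mul_le_mul_of_nonneg_left b8 h4.le
    nlinarith
  have hpow : 0 < X ^ (1 / 2 + ε) := Real.rpow_pos_of_pos hX0 _
  rw [Real.rpow_neg hX0.le, ← div_eq_mul_inv, div_le_iff₀ hpow]
  calc (S.card : ℝ) ^ 2 ≤ 128 * C * X ^ (1 / 2 + 10 * δ') * N := k5
    _ ≤ X ^ (1 / 2 + ε) * N := mul_le_mul_of_nonneg_right k6 hN0
    _ = _ := mul_comm _ _

end Pool.Agent.H86.QE
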