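import Pool.Agent.H86.QE.E

set_option autoImplicit false

/-!
# Products of two primes
-/

namespace Pool.Agent.H86.QE

open Finset Filter Topology
open Pool.Agent.H86.QC
open Pool.Agent.X24.Coset (ev_pow ev_c3 P card_block)
open Pool.Agent.Q122.FM (kron IsFund LHalf)

/-- the prime discriminant `p` or `-p`, congruent to `1` modulo `4` -/
def psd (p : ℕ) : ℤ := if p % 4 = 1 then (p : ℤ) else -(p : ℤ)

theorem psd_natAbs (p : ℕ) : (psd p).natAbs = p := by
  unfold psd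
  split_ifs <;> simp

theorem psd_mod {p : ℕ} (hp : p % 2 = 1) : psd p % 4 = 1 := by
  unfold psd
  split_ifs with h <;> omega

theorem psd_sqf {p : ℕ} (hp : p.Prime) : Squarefree (psd p) := by
  rw [← Int.squarefree_natAbs, psd_natAbs]
  exact hp.prime.squarefree

theorem psd_abs (p : ℕ) : |((psd p : ℤ) : ℝ)| = p := by
  rw [← natAbs_cast_abs, psd_natAbs]

theorem psd_inj {p q : ℕ} (h : psd p = psd q) : p = q := by
  have := congrArg Int.natAbs h
  rwa [psd_natAbs, psd_natAbs] at this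

theorem psd_cop {p q : ℕ} (hp : p.Prime) (hq : q.Prime) (h : p ≠ q) : IsCoprime (psd p) (psd q) := by
  rw [Int.isCoprime_iff_gcd_eq_one, Int.gcd, psd_natAbs, psd_natAbs]
  exact (Nat.coprime_primes hp hq).2 h

theorem mem_P {j p : ℕ} : p ∈ P j ↔ (4 ^ j < p ∧ p ≤ 4 ^ (j + 1)) ∧ p.Prime := by
  unfold P
  rw [mem_filter, mem_Ioc]

theorem odd_P {j p : ℕ} (hj : 1 ≤ j) (hp : p ∈ P j) : p % 2 = 1 := by
  obtain ⟨⟨h1, -⟩, h2⟩ := mem_P.1 hp
  have h3 : 4 ^ 1 ≤ 4 ^ j := Nat.pow_le_pow_right (by norm_num) hj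
  rcases h2.eq_two_or_odd with h | h
  · omega
  · exact h

/-- the prime discriminants of one block -/
def SP (j : ℕ) : Finset ℤ := (P j).image psd

theorem SP_card (j : ℕ) : (SP j).card = (P j).card := card_image_of_injective _ fun _ _ h => psd_inj h

theorem SP_fml {j : ℕ} (hj : 1 ≤ j) : Fml (SP j) (4 ^ j) 4 := by
  constructor
  · intro D hD
    obtain ⟨p, hp, rfl⟩ := mem_image.1 hD
    obtain ⟨⟨h1, h2⟩, h3⟩ := mem_P.1 hp
    refine ⟨Or.inl ⟨psd_mod (odd_P hj hp), psd_sqf h3⟩, ?_, ?_⟩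
    · rw [psd_abs]
      exact_mod_cast h1.le
    · rw [psd_abs]
      have : (p : ℝ) ≤ 4 ^ (j + 1) := by exact_mod_cast h2
      rw [pow_succ] at this
      linarith
  · intro D hD E hE hne
    obtain ⟨p, hp, rfl⟩ := mem_image.1 hD
    obtain ⟨q, hq, rfl⟩ := mem_image.1 hE
    exact psd_cop (mem_P.1 hp).2 (mem_P.1 hq).2 fun h => hne (by rw [h])

/-- a product of two prime discriminants, of different odd primes -/
def Two (d : ℤ) : Prop := ∃ p q : ℕ, p.Prime ∧ q.Prime ∧ p % 2 = 1 ∧ q % 2 = 1 ∧ p ≠ q ∧ d = psd p * psd q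

open Classical in
/-- the large values -/
noncomputable def LV (X V : ℝ) : Finset ℤ :=
  (Icc (-⌊X⌋) ⌊X⌋).filter fun d => Two d ∧ V ≤ LHalf d

theorem card_LV {j : ℕ} (hj : 1 ≤ j) {X V W : ℝ} (hX : (4 : ℝ) ^ (j + 1) * 4 ^ (j + 1) ≤ X) (hVW : W ≤ V) :
    (big (SP j) V).card ≤ 2 * (LV X W).card := by
  classical
  have h1 : (big (SP j) V).image (fun x : ℤ × ℤ => x.1 * x.2) ⊆ LV X W := by
    intro d hd
    obtain ⟨x, hx, rfl⟩ := mem_image.1 hd
    unfold big at hx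
    obtain ⟨hx1, hx2, hx3⟩ := mem_filter.1 hx
    obtain ⟨hD, hE⟩ := mem_product.1 hx1
    obtain ⟨p, hp, hpD⟩ := mem_image.1 hD
    obtain ⟨q, hq, hqE⟩ := mem_image.1 hE
    unfold LV
    rw [mem_filter, mem_Icc]
    have hpq : |((x.1 * x.2 : ℤ) : ℝ)| ≤ X := by
      rw [← hpD, ← hqE]
      push_cast
      rw [abs_mul, psd_abs, psd_abs]
      have e1 : (p : ℝ) ≤ 4 ^ (j + 1) := by exact_mod_cast (mem_P.1 hp).1.2
      have e2 : (q : ℝ) ≤ 4 ^ (j + 1) := by exact_mod_cast (mem_P.1 hq).1.2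
      exact (mul_le_mul e1 e2 (Nat.cast_nonneg _) (by positivity)).trans hX
    rw [abs_le] at hpq
    refine ⟨⟨?_, Int.le_floor.2 hpq.2⟩, ⟨p, q, (mem_P.1 hp).2, (mem_P.1 hq).2, odd_P hj hp, odd_P hj hq, ?_, ?_⟩,
      hVW.trans hx3⟩
    · have h2 : -(x.1 * x.2) ≤ ⌊X⌋ := by
        rw [Int.le_floor]
        push_cast at hpq ⊢
        linarith [hpq.1]
      linarith
    · rintro rfl
      exact hx2 (hpD.symm.trans hqE)
    · rw [hpD, hqE]
  refine (card_le_mul_card_image (f := fun x : ℤ × ℤ => x.1 * x.2) (big (SP j) V) 2 ?_).trans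
    (Nat.mul_le_mul_left 2 (card_le_card h1))
  intro a ha
  obtain ⟨y, hy, rfl⟩ := mem_image.1 ha
  have hpr : ∀ x ∈ big (SP j) V, ∃ p q : ℕ, p.Prime ∧ q.Prime ∧ x.1 = psd p ∧ x.2 = psd q := by
    intro x hx
    unfold big at hx
    obtain ⟨hx1, -⟩ := mem_filter.1 hx
    obtain ⟨hD, hE⟩ := mem_product.1 hx1
    obtain ⟨p, hp, hpD⟩ := mem_image.1 hD
    obtain ⟨q, hq, hqE⟩ := mem_image.1 hE
    exact ⟨p, q, (mem_P.1 hp).2, (mem_P.1 hq).2, hpD.symm, hqE.symm⟩
  have h2 : (big (SP j) V).filter (fun x => x.1 * x.2 = y.1 * y.2) ⊆ {(y.1, y.2), (y.2, y.1)} := by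
    intro x hx
    obtain ⟨hx1, hx2⟩ := mem_filter.1 hx
    obtain ⟨p, q, hp, hq, e1, e2⟩ := hpr x hx1
    obtain ⟨p', q', hp', hq', e3, e4⟩ := hpr y hy
    have h3 : p * q = p' * q' := by
      have := congrArg Int.natAbs hx2
      rwa [Int.natAbs_mul, Int.natAbs_mul, e1, e2, e3, e4, psd_natAbs, psd_natAbs, psd_natAbs, psd_natAbs] at this
    have h4 : p ∣ p' * q' := ⟨q, h3.symm⟩
    rw [mem_insert, mem_singleton]
    rcases (Nat.Prime.dvd_mul hp).1 h4 with h5 | h5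
    · left
      have h6 := (Nat.prime_dvd_prime_iff_eq hp hp').1 h5
      have h7 : q = q' := by
        rw [h6] at h3
        exact Nat.eq_of_mul_eq_mul_left hp'.pos h3
      refine Prod.ext ?_ ?_
      · simp only
        rw [e1, e3, h6]
      · simp only
        rw [e2, e4, h7]
    · right
      have h6 := (Nat.prime_dvd_prime_iff_eq hp hq').1 h5
      have h7 : q = p' := by
        rw [h6, mul_comm p'] at h3
        exact Nat.eq_of_mul_eq_mul_left hq'.pos h3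
      refine Prod.ext ?_ ?_
      · simp only
        rw [e1, e4, h6]
      · simp only
        rw [e2, e3, h7]
  exact (card_le_card h2).trans card_le_two

/-- comparison of the sizes -/
theorem VV_comp {c X X' : ℝ} (hc : 0 ≤ c) (h0 : 0 < Real.log X') (h1 : Real.exp 1 ≤ Real.log (Real.log X'))
    (h2 : Real.log X' ≤ Real.log X) (h3 : Real.log X ≤ 4 * Real.log X') : VV (c / 2) X ≤ VV c X' := by
  unfold VV
  set L := Real.log X
  set L' := Real.log X'
  have he := Real.exp_one_gt_d9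
  have hu' : 0 < Real.log L' := by linarith
  have hL' : 0 < L' := h0
  have hL : 0 < L := by linarith
  have huu : Real.log L' ≤ Real.log L := Real.log_le_log hL' h2
  have h4 := Real.log_div_self_antitoneOn (by simpa using h1) (by simpa using h1.trans huu) huu
  have hu : 0 < Real.log L := by linarith
  have hv : 0 ≤ Real.log (Real.log L) := Real.log_nonneg (by linarith)
  apply Real.exp_le_exp.2
  have h5 : √(L * Real.log (Real.log L) / Real.log L) ≤ 2 * √(L' * Real.log (Real.log L') / Real.log L') := by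
    rw [show (2 : ℝ) * √(L' * Real.log (Real.log L') / Real.log L') =
      √(4 * (L' * Real.log (Real.log L') / Real.log L')) by
        rw [Real.sqrt_mul (by norm_num), show (4 : ℝ) = 2 ^ 2 by norm_num, Real.sqrt_sq (by norm_num)]]
    apply Real.sqrt_le_sqrt
    have h6 : 0 ≤ Real.log (Real.log L) / Real.log L := div_nonneg hv hu.le
    calc L * Real.log (Real.log L) / Real.log L = L * (Real.log (Real.log L) / Real.log L) := by rw [mul_div_assoc]
      _ ≤ (4 * L') * (Real.log (Real.log L') / Real.log L') := mul_le_mul h3 h4 h6 (by positivity)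
      _ = _ := by ring
  calc c / 2 * √(L * Real.log (Real.log L) / Real.log L) ≤
      c / 2 * (2 * √(L' * Real.log (Real.log L') / Real.log L')) := mul_le_mul_of_nonneg_left h5 (by positivity)
    _ = _ := by ring

/-- **Large central values for products of two primes** -/
theorem two_primes {ε : ℝ} (hε : 0 < ε) : ∃ c : ℝ, 0 < c ∧ ∃ X₀ : ℝ, ∀ X : ℝ, X₀ ≤ X →
    X ^ (3 / 4 - ε) ≤ (LV X (VV c X)).card := by
  set η : ℝ := min (ε / 4) (1 / 8) with hη
  have hη0 : 0 < η := lt_min (by positivity) (by norm_num)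
  have hη1 : η ≤ 1 / 8 := min_le_right _ _
  have hη2 : η ≤ ε / 4 := min_le_left _ _
  obtain ⟨c, hc, X₁, h⟩ := extreme (δ := 1 / 4) (ε := η) (R := 4) (by norm_num) hη0 (by norm_num)
  refine ⟨c / 2, by positivity, ?_⟩
  -- the blocks
  have hlim : Tendsto (fun j : ℕ => (4 : ℝ) ^ j) atTop atTop := tendsto_pow_atTop_atTop_of_one_lt (by norm_num)
  have b1 := hlim.eventually_ge_atTop X₁
  have b2 : ∀ᶠ j : ℕ in atTop, Real.exp 1 ≤ Real.log (Real.log ((4 : ℝ) ^ j)) :=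
    hlim.eventually ((Real.tendsto_log_atTop.comp Real.tendsto_log_atTop).eventually_ge_atTop _)
  have b3 : ∀ᶠ j : ℕ in atTop, 4096 * Real.log ((4 : ℝ) ^ j) ^ 2 ≤ ((4 : ℝ) ^ j) ^ η := by
    have h1 := (isLittleO_log_rpow_atTop (show 0 < η / 2 by positivity)).bound (c := 1 / 512) (by norm_num)
    have h2 := hlim.eventually (h1.and (eventually_ge_atTop (1 : ℝ)))
    filter_upwards [h2] with j hj
    obtain ⟨hj1, hj2⟩ := hj
    have h3 : 0 ≤ Real.log ((4 : ℝ) ^ j) := Real.log_nonneg hj2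
    rw [Real.norm_of_nonneg h3, Real.norm_of_nonneg (by positivity)] at hj1
    have h4 : (((4 : ℝ) ^ j) ^ (η / 2)) ^ 2 = ((4 : ℝ) ^ j) ^ η := by
      rw [← Real.rpow_natCast, ← Real.rpow_mul (by positivity)]
      congr 1
      push_cast
      ring
    have h5 := pow_le_pow_left₀ h3 hj1 2
    rw [mul_pow, h4] at h5
    nlinarith [Real.rpow_nonneg (show (0 : ℝ) ≤ (4 : ℝ) ^ j by positivity) η]
  obtain ⟨j₀, hj₀⟩ := eventually_atTop.1 (b1.and (b2.and (b3.and (eventually_ge_atTop 8))))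
  refine ⟨(16 : ℝ) ^ (j₀ + 2), fun X hX => ?_⟩
  have hX1 : 1 ≤ X := le_trans (one_le_pow₀ (by norm_num)) hX
  have hX0 : 0 < X := by linarith
  -- the block of `X`
  have hfl : 16 ^ (j₀ + 2) ≤ ⌊X⌋₊ := Nat.le_floor (by push_cast; exact hX)
  set l := Nat.log 16 ⌊X⌋₊ with hl
  have hl1 : 16 ^ l ≤ ⌊X⌋₊ := Nat.pow_log_le_self 16 (by
    have : 0 < 16 ^ (j₀ + 2) := by positivity
    omega)
  have hl2 : ⌊X⌋₊ < 16 ^ (l + 1) := Nat.lt_pow_succ_log_self (by norm_num) _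
  have hl3 : j₀ + 2 ≤ l := Nat.le_log_of_pow_le (by norm_num) hfl
  obtain ⟨j, hj⟩ : ∃ j, l = j + 1 := ⟨l - 1, by omega⟩
  rw [hj] at hl1 hl2 hl3
  obtain ⟨c1, c2, c3, c4⟩ := hj₀ j (by omega)
  have u1 : (16 : ℝ) ^ (j + 1) ≤ X := by
    have : ((16 ^ (j + 1) : ℕ) : ℝ) ≤ (⌊X⌋₊ : ℝ) := by exact_mod_cast hl1
    push_cast at this
    exact this.trans (Nat.floor_le hX0.le)
  have u2 : X ≤ (16 : ℝ) ^ (j + 2) := by
    have h1 : X < (⌊X⌋₊ : ℝ) + 1 := Nat.lt_floor_add_one X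
    have h2 : ((⌊X⌋₊ + 1 : ℕ) : ℝ) ≤ ((16 ^ (j + 1 + 1) : ℕ) : ℝ) := by exact_mod_cast hl2
    push_cast at h2
    linarith
  set X' : ℝ := (4 : ℝ) ^ j with hX'
  have hX'0 : 0 < X' := by positivity
  have hX'1 : 1 ≤ X' := one_le_pow₀ (by norm_num)
  have e16 : ∀ n : ℕ, (16 : ℝ) ^ n = 4 ^ n * 4 ^ n := fun n => by
    rw [← mul_pow]
    norm_num
  have hlog4 : 0 < Real.log 4 := Real.log_pos (by norm_num)
  have hlogX' : Real.log X' = j * Real.log 4 := by rw [hX', Real.log_pow]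
  -- the sizes of the sets
  have hcard := card_block j c4
  have hj1 : 1 ≤ j := by omega
  have hS := SP_fml hj1
  have hScard : X' / (2 * (j + 1)) ≤ ((SP j).card : ℝ) := by
    rw [SP_card, div_le_iff₀ (by positivity)]
    have : ((4 ^ j : ℕ) : ℝ) ≤ ((2 * (j + 1) * (P j).card : ℕ) : ℝ) := by exact_mod_cast hcard
    push_cast at this
    rw [hX']
    linarith
  have hlj : (j : ℝ) + 1 ≤ 2 * Real.log X' := by
    rw [hlogX']
    have h1 : 1 ≤ Real.log 4 := by
      rw [Real.le_log_iff_exp_le (by norm_num)]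
      linarith [Real.exp_one_lt_d9]
    have h2 : (1 : ℝ) ≤ j := by exact_mod_cast hj1
    nlinarith
  have hj0 : (0 : ℝ) ≤ j := Nat.cast_nonneg _
  have hsq : 512 * ((j : ℝ) + 1) ^ 2 ≤ X' ^ η := by
    have h1 : ((j : ℝ) + 1) ^ 2 ≤ 4 * Real.log X' ^ 2 := by
      have := pow_le_pow_left₀ (by positivity) hlj 2
      nlinarith
    have h2 := sq_nonneg (Real.log X')
    linarith
  have hpη : X' ^ η ≤ X' ^ (1 / 8 : ℝ) := Real.rpow_le_rpow_of_exponent_le hX'1 hη1
  have hbig : X' ^ (1 / 2 + 1 / 4 : ℝ) ≤ (SP j).card := by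
    refine le_trans ?_ hScard
    rw [le_div_iff₀ (by positivity)]
    have h1 : 2 * ((j : ℝ) + 1) ≤ X' ^ (1 / 4 : ℝ) := by
      have h2 : X' ^ (1 / 8 : ℝ) ≤ X' ^ (1 / 4 : ℝ) := Real.rpow_le_rpow_of_exponent_le hX'1 (by norm_num)
      nlinarith
    calc X' ^ (1 / 2 + 1 / 4 : ℝ) * (2 * ((j : ℝ) + 1)) ≤ X' ^ (1 / 2 + 1 / 4 : ℝ) * X' ^ (1 / 4 : ℝ) :=
          mul_le_mul_of_nonneg_left h1 (Real.rpow_nonneg hX'0.le _)
      _ = X' ^ (1 : ℝ) := by
          rw [← Real.rpow_add hX'0]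
          norm_num
      _ = X' := Real.rpow_one _
  have hmain := h X' c1 (SP j) hS hbig
  -- comparison
  have hLX : Real.log X' ≤ Real.log X := by
    apply Real.log_le_log hX'0
    refine le_trans ?_ u1
    rw [e16]
    have h1 : X' ≤ 4 ^ (j + 1) := by
      rw [hX', pow_succ]
      linarith
    have h2 : (1 : ℝ) ≤ 4 ^ (j + 1) := one_le_pow₀ (by norm_num)
    nlinarith
  have hLX2 : Real.log X ≤ 4 * Real.log X' := by
    have h1 := Real.log_le_log hX0 u2
    rw [e16, ← mul_pow, Real.log_pow, show (4 : ℝ) * 4 = 4 ^ 2 by norm_num, Real.log_pow] at h1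
    push_cast at h1
    rw [hlogX']
    have h2 : (2 : ℝ) ≤ j := by exact_mod_cast (by omega : 2 ≤ j)
    nlinarith
  have hLX'0 : 0 < Real.log X' := by
    rw [hlogX']
    have h2 : (1 : ℝ) ≤ j := by exact_mod_cast hj1
    positivity
  have hVV := VV_comp (X := X) (X' := X') hc.le hLX'0 c2 hLX hLX2
  have hcLV := card_LV (j := j) hj1 (X := X) (V := VV c X') (W := VV (c / 2) X)
    (by rw [← e16]; exact u1) hVV
  have hcLV' : ((big (SP j) (VV c X')).card : ℝ) ≤ 2 * ((LV X (VV (c / 2) X)).card : ℝ) := by exact_mod_cast hcLV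
  have k1 : (X' / (2 * (j + 1))) ^ 2 * X' ^ (-(1 / 2 + η)) ≤ 2 * ((LV X (VV (c / 2) X)).card : ℝ) := by
    refine le_trans ?_ (hmain.trans hcLV')
    exact mul_le_mul_of_nonneg_right (pow_le_pow_left₀ (by positivity) hScard 2) (Real.rpow_nonneg hX'0.le _)
  -- the final comparison
  have k2 : X' ^ (3 / 2 - 2 * η) * 128 ≤ (X' / (2 * (j + 1))) ^ 2 * X' ^ (-(1 / 2 + η)) := by
    have e1 : (X' / (2 * (j + 1))) ^ 2 * X' ^ (-(1 / 2 + η)) = X' ^ (3 / 2 - η) / (4 * ((j : ℝ) + 1) ^ 2) := by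
      have e2 : X' ^ (3 / 2 - η) = X' ^ 2 * X' ^ (-(1 / 2 + η)) := by
        rw [← Real.rpow_natCast, ← Real.rpow_add hX'0]
        congr 1
        push_cast
        ring
      rw [e2]
      field_simp
      ring
    rw [e1, le_div_iff₀ (by positivity)]
    have e3 : X' ^ (3 / 2 - η) = X' ^ (3 / 2 - 2 * η) * X' ^ η := by
      rw [← Real.rpow_add hX'0]
      congr 1
      ring
    rw [e3, mul_assoc]
    refine mul_le_mul_of_nonneg_left ?_ (Real.rpow_nonneg hX'0.le _)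
    linarith
  have k3 : X ^ (3 / 4 - ε) ≤ 64 * X' ^ (3 / 2 - 2 * η) := by
    have h1 : X ^ (3 / 4 - ε) ≤ X ^ (3 / 4 - η) :=
      Real.rpow_le_rpow_of_exponent_le hX1 (by linarith)
    have h2 : X ≤ 256 * X' ^ 2 := by
      refine u2.trans (le_of_eq ?_)
      rw [e16, hX']
      ring
    have h3 : X ^ (3 / 4 - η) ≤ (256 * X' ^ 2) ^ (3 / 4 - η) := Real.rpow_le_rpow hX0.le h2 (by linarith)
    have h4 : (256 * X' ^ 2) ^ (3 / 4 - η) = 256 ^ (3 / 4 - η) * X' ^ (3 / 2 - 2 * η) := by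
      rw [Real.mul_rpow (by norm_num) (by positivity), ← Real.rpow_natCast X' 2, ← Real.rpow_mul hX'0.le]
      congr 2
      push_cast
      ring
    have h5 : (256 : ℝ) ^ (3 / 4 - η) ≤ 64 := by
      calc (256 : ℝ) ^ (3 / 4 - η) ≤ 256 ^ (3 / 4 : ℝ) :=
            Real.rpow_le_rpow_of_exponent_le (by norm_num) (by linarith)
        _ = 64 := by
          rw [show (256 : ℝ) = 4 ^ (4 : ℝ) by norm_num, ← Real.rpow_mul (by norm_num)]
          norm_num
    rw [h4] at h3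
    exact h1.trans (h3.trans (mul_le_mul_of_nonneg_right h5 (Real.rpow_nonneg hX'0.le _)))
  linarith

end Pool.Agent.H86.QE
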